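import Pool.Agent.Helper33.SL.S1
import Pool.Agent.Helper99.SL.Cnt
import Pool.Agent.Helper2.SL.Count

namespace Pool.Agent.Helper22.SL

open Finset Pool.Agent.Helper27.T4 Pool.Agent.Helper29.T4 Pool.Agent.Helper22.HW

variable {κ : Type*} [DecidableEq κ] {Mk : κ → ℕ} {P : Pr κ} {I : ℕ} {X Ir : ℕ → ℕ}

open Classical in
theorem countB_of (hP : P.Ok Mk) (hT : Tg P I X Ir) (w : κ → ℕ) {r : ℕ} (hr : r ≤ P.h) (t : ℕ)
    (hcnt : ∀ i t : ℕ, (((CC P w I X r).filter (fun d => d.1 = i ∧ TT X d r = t)).card : ℝ) ≤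
      P.A r * P.pc r * P.W r) :
    (((CC P w I X r).filter (fun d => TT X d r = t)).card : ℝ) ≤
      Ir r * P.A r * P.pc r * P.W r := by
  set J := (range I).filter (fun i => X i % P.F' r = t % P.F' r) with hJ
  have h1 : (CC P w I X r).filter (fun d => TT X d r = t) ⊆
      J.biUnion (fun i => (CC P w I X r).filter (fun d => d.1 = i ∧ TT X d r = t)) := by
    intro d hd
    rw [mem_filter] at hd
    obtain ⟨h2, h3⟩ := Pool.Agent.Helper33.SL.CC_inv hP hT w hr hd.1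
    rw [mem_biUnion]
    refine ⟨d.1, ?_, mem_filter.2 ⟨hd.1, rfl, hd.2⟩⟩
    rw [AP, mem_filter] at h3
    rw [hJ, mem_filter, mem_range]
    exact ⟨h2, by rw [← hd.2]; exact h3.2.2.1.symm⟩
  have hJc : J.card ≤ Ir r := hT.cls r hr t
  have hA := Pool.Agent.Helper99.SL.A_nonneg P r
  have hW := Pool.Agent.Helper99.SL.W_nonneg P r
  have hp := Pool.Agent.Helper99.SL.pc_nonneg P r
  calc (((CC P w I X r).filter (fun d => TT X d r = t)).card : ℝ)
      ≤ ((J.biUnion (fun i => (CC P w I X r).filter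
          (fun d => d.1 = i ∧ TT X d r = t))).card : ℝ) := by exact_mod_cast card_le_card h1
    _ ≤ ∑ i ∈ J, (((CC P w I X r).filter (fun d => d.1 = i ∧ TT X d r = t)).card : ℝ) := by
        exact_mod_cast card_biUnion_le
    _ ≤ ∑ _i ∈ J, P.A r * P.pc r * P.W r := sum_le_sum (fun i _ => hcnt i t)
    _ = (J.card : ℝ) * (P.A r * P.pc r * P.W r) := by rw [sum_const, nsmul_eq_mul]
    _ ≤ (Ir r : ℝ) * (P.A r * P.pc r * P.W r) :=
        mul_le_mul_of_nonneg_right (by exact_mod_cast hJc) (by positivity)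
    _ = _ := by ring

open Classical in
theorem countL_of (hP : P.Ok Mk) (hT : Tg P I X Ir) (w : κ → ℕ) (B B' : Finset ℕ)
    (hcnt : ∀ i t : ℕ, (((CC P w I X P.h).filter (fun d => d.1 = i ∧ TT X d P.h = t)).card : ℝ) ≤
      P.A P.h * P.pc P.h * P.W P.h) :
    (((CC P w I X P.h ×ˢ (B ×ˢ B')).filter (fun q =>
      P.M * P.L P.h * q.2.1 + P.M' * P.L P.h * q.2.2 = TT X q.1 P.h)).card : ℝ) ≤
      PP P I X B B' * P.A P.h * P.pc P.h * P.W P.h := by
  set J := (range I ×ˢ (B ×ˢ B')).filter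
    (fun q => P.M * P.L P.h * q.2.1 + P.M' * P.L P.h * q.2.2 ∈ AP P X P.h q.1) with hJ
  set G : ℕ × (ℕ × ℕ) → Finset (Dt × (ℕ × ℕ)) := fun q =>
    ((CC P w I X P.h).filter (fun d => d.1 = q.1 ∧
      TT X d P.h = P.M * P.L P.h * q.2.1 + P.M' * P.L P.h * q.2.2)).image (fun d => (d, q.2))
    with hG
  have h1 : (CC P w I X P.h ×ˢ (B ×ˢ B')).filter (fun q =>
      P.M * P.L P.h * q.2.1 + P.M' * P.L P.h * q.2.2 = TT X q.1 P.h) ⊆ J.biUnion G := by
    rintro ⟨d, b⟩ hd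
    rw [mem_filter, mem_product] at hd
    obtain ⟨⟨hd1, hd2⟩, hd3⟩ := hd
    obtain ⟨h2, h3⟩ := Pool.Agent.Helper33.SL.CC_inv hP hT w le_rfl hd1
    rw [mem_biUnion]
    refine ⟨(d.1, b), ?_, ?_⟩
    · rw [hJ, mem_filter, mem_product, mem_range]
      refine ⟨⟨h2, hd2⟩, ?_⟩
      rw [hd3]
      exact h3
    · rw [hG, mem_image]
      exact ⟨d, mem_filter.2 ⟨hd1, rfl, hd3.symm⟩, rfl⟩
  have hGc : ∀ q ∈ J, ((G q).card : ℝ) ≤ P.A P.h * P.pc P.h * P.W P.h := by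
    intro q _
    refine le_trans ?_ (hcnt q.1 (P.M * P.L P.h * q.2.1 + P.M' * P.L P.h * q.2.2))
    exact_mod_cast card_image_le
  calc (((CC P w I X P.h ×ˢ (B ×ˢ B')).filter (fun q =>
      P.M * P.L P.h * q.2.1 + P.M' * P.L P.h * q.2.2 = TT X q.1 P.h)).card : ℝ)
      ≤ ((J.biUnion G).card : ℝ) := by exact_mod_cast card_le_card h1
    _ ≤ ∑ q ∈ J, ((G q).card : ℝ) := by exact_mod_cast card_biUnion_le
    _ ≤ ∑ _q ∈ J, P.A P.h * P.pc P.h * P.W P.h := sum_le_sum hGc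
    _ = (J.card : ℝ) * (P.A P.h * P.pc P.h * P.W P.h) := by rw [sum_const, nsmul_eq_mul]
    _ = _ := by rw [PP, ← hJ]; ring

end Pool.Agent.Helper22.SL
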