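import Pool.Agent.Helper22.SL.PrA
import Pool.Agent.Helper2.SL.Count
import Pool.Agent.Helper2.SL.CountA
import Pool.Agent.Helper33.SL.S1
import Pool.Agent.Helper99.SL.Cnt
import Pool.Agent.Helper6.SL.TrMem
import Pool.Agent.Helper50.SL.Extract
import Pool.Agent.Helper82.SL.PrL
import Pool.Agent.Helper88.SL.PrB
import Pool.Agent.Helper64.SL.TTConst
import Pool.Agent.Helper22.SL.CountBL

/-!
# T5, block SL: the static block (assembly)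
-/

namespace Pool.Agent.Helper22.SL

open Finset Pool.Agent.Helper27.T4 Pool.Agent.Helper29.T4 Pool.Agent.Helper22.HW

variable {κ : Type*} [DecidableEq κ] {Mk : κ → ℕ} {P : Pr κ} {I : ℕ} {X Ir : ℕ → ℕ}

/-! ## counting -/

theorem CC_inv (hP : P.Ok Mk) (hT : Tg P I X Ir) (w : κ → ℕ) {r : ℕ} (hr : r ≤ P.h) {d : Dt}
    (hd : d ∈ CC P w I X r) : d.1 < I ∧ TT X d r ∈ AP P X r d.1 :=
  Pool.Agent.Helper33.SL.CC_inv hP hT w hr hd

theorem card_AP (hP : P.Ok Mk) {r : ℕ} (hr : r < P.h) (i : ℕ) :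
    ((AP P X r i).card : ℝ) * P.pc r ≤ 10 :=
  Pool.Agent.Helper33.SL.card_AP hP hr i

open Classical in
theorem cnt (hP : P.Ok Mk) (hT : Tg P I X Ir) (w : κ → ℕ) {r : ℕ} (hr : r ≤ P.h) (i t : ℕ) :
    (((CC P w I X r).filter (fun d => d.1 = i ∧ TT X d r = t)).card : ℝ) ≤
      P.A r * P.pc r * P.W r :=
  Pool.Agent.Helper99.SL.cnt_of w (fun _ hr _ hd => CC_inv hP hT w hr hd)
    (fun _ hr i => card_AP hP hr i)
    (fun _ hr t t' => Pool.Agent.Helper2.SL.lv_count hP hr w t t') r hr i t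

theorem tot (hP : P.Ok Mk) (hT : Tg P I X Ir) (w : κ → ℕ) {r : ℕ} (hr : r < P.h) :
    ((CC P w I X r).card : ℝ) ≤ 10 * I * P.A r * P.W r :=
  Pool.Agent.Helper99.SL.tot_of w (fun _ hr _ hd => CC_inv hP hT w hr hd)
    (fun _ hr i => card_AP hP hr i)
    (fun _ hr t t' => Pool.Agent.Helper2.SL.lv_count hP hr w t t') hr

open Classical in
omit [DecidableEq κ] in
theorem lvA_count (hP : P.Ok Mk) {r : ℕ} (hr : r < P.h) (w : κ → ℕ) (t a b : ℕ) :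
    (((box P r).filter (fun ℓ => Lok P w univ {0, 2} r t ℓ ∧ ℓ.1.1 0 = a ∧ ℓ.1.1 1 = b)).card : ℝ)
      ≤ 8 * P.p r 0 * P.p r 2 * Real.sqrt (P.q r 1) :=
  Pool.Agent.Helper2.SL.lvA_count hP hr w t a b

open Classical in
omit [DecidableEq κ] in
theorem lvA'_count (hP : P.Ok Mk) {r : ℕ} (hr : r < P.h) (w : κ → ℕ) (t a b : ℕ) :
    (((box P r).filter (fun ℓ => Lok P w {0, 2} univ r t ℓ ∧ ℓ.1.2 0 = a ∧ ℓ.1.2 1 = b)).card : ℝ)
      ≤ 8 * P.p r 0 * P.p r 2 * Real.sqrt (P.q r 1) :=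
  Pool.Agent.Helper2.SL.lvA'_count hP hr w t a b

open Classical in
theorem countB (hP : P.Ok Mk) (hT : Tg P I X Ir) (w : κ → ℕ) {r : ℕ} (hr : r ≤ P.h) (t : ℕ) :
    (((CC P w I X r).filter (fun d => TT X d r = t)).card : ℝ) ≤
      Ir r * P.A r * P.pc r * P.W r :=
  countB_of hP hT w hr t (fun i t => cnt hP hT w hr i t)

open Classical in
theorem countL (hP : P.Ok Mk) (hT : Tg P I X Ir) (w : κ → ℕ) (B B' : Finset ℕ) :
    (((CC P w I X P.h ×ˢ (B ×ˢ B')).filter (fun q =>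
      P.M * P.L P.h * q.2.1 + P.M' * P.L P.h * q.2.2 = TT X q.1 P.h)).card : ℝ) ≤
      PP P I X B B' * P.A P.h * P.pc P.h * P.W P.h :=
  countL_of hP hT w B B' (fun i t => cnt hP hT w le_rfl i t)

/-! ## probabilities -/

variable {K : Finset κ}

omit [DecidableEq κ] in
theorem W_nonneg (P : Pr κ) (r : ℕ) : 0 ≤ P.W r :=
  Finset.prod_nonneg (fun _ _ => by positivity)

theorem trMem (hP : P.Ok Mk) (B B' : Finset ℕ) : TrMem P I X B B' :=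
  fun _ _ hx _ hr w' hw => tr_mem hP hx hr w' hw

theorem prA_aux (s : Bool) (hP : P.Ok Mk) (hT : Tg P I X Ir) (hMk : ∀ k, 0 < Mk k)
    (hK : ∀ r < P.h, ∀ i, ∀ y ∈ P.Y r, P.key r i y ∈ K ∧ P.key' r i y ∈ K) (B B' : Finset ℕ)
    {ρ : ℝ} (hρ : 0 ≤ ρ) {r : ℕ} (hr : r < P.h)
    (h1 : 80 * I * P.A r * P.p r 0 * P.p r 2 * Real.sqrt (P.q r 1) ≤ ρ * P.q r 1) (m : ℕ) :
    PrG Mk K (Ev P I X B B' m (if s then EvA' r else EvA r))
      ((P.q r 0 * P.q r 1 : ℕ) * (P.W r * P.q r 1) * ρ ^ (m + 1)) := by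
  classical
  refine prA_gen s hP hMk hK B B' (trMem hP B B') hr
    (cl := 8 * P.p r 0 * P.p r 2 * Real.sqrt (P.q r 1)) (tt := 10 * I * P.A r * P.W r)
    (by positivity) (fun w => tot hP hT w hr) ?_ hρ ?_ m
  · intro w t a b F hF
    cases s
    · refine le_trans (Nat.cast_le.2 (card_le_card ?_)) (lvA_count hP hr w t a b)
      intro ℓ hℓ
      have := hF ℓ hℓ
      simp only [Bool.false_eq_true, if_false] at this
      rw [mem_filter]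
      exact this
    · refine le_trans (Nat.cast_le.2 (card_le_card ?_)) (lvA'_count hP hr w t a b)
      intro ℓ hℓ
      have := hF ℓ hℓ
      simp only [if_true] at this
      rw [mem_filter]
      exact this
  · have hW := W_nonneg P r
    have h2 := mul_le_mul_of_nonneg_right h1 hW
    calc 10 * (I : ℝ) * P.A r * P.W r * (8 * P.p r 0 * P.p r 2 * Real.sqrt (P.q r 1))
        = 80 * I * P.A r * P.p r 0 * P.p r 2 * Real.sqrt (P.q r 1) * P.W r := by ring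
      _ ≤ ρ * P.q r 1 * P.W r := h2
      _ = _ := by ring

theorem prA (hP : P.Ok Mk) (hT : Tg P I X Ir) (hMk : ∀ k, 0 < Mk k)
    (hK : ∀ r < P.h, ∀ i, ∀ y ∈ P.Y r, P.key r i y ∈ K ∧ P.key' r i y ∈ K) (B B' : Finset ℕ)
    {ρ : ℝ} (hρ : 0 ≤ ρ) {r : ℕ} (hr : r < P.h)
    (h1 : 80 * I * P.A r * P.p r 0 * P.p r 2 * Real.sqrt (P.q r 1) ≤ ρ * P.q r 1) (m : ℕ) :
    PrG Mk K (Ev P I X B B' m (EvA r))
      ((P.q r 0 * P.q r 1 : ℕ) * (P.W r * P.q r 1) * ρ ^ (m + 1)) :=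
  prA_aux false hP hT hMk hK B B' hρ hr h1 m

theorem prA' (hP : P.Ok Mk) (hT : Tg P I X Ir) (hMk : ∀ k, 0 < Mk k)
    (hK : ∀ r < P.h, ∀ i, ∀ y ∈ P.Y r, P.key r i y ∈ K ∧ P.key' r i y ∈ K) (B B' : Finset ℕ)
    {ρ : ℝ} (hρ : 0 ≤ ρ) {r : ℕ} (hr : r < P.h)
    (h1 : 80 * I * P.A r * P.p r 0 * P.p r 2 * Real.sqrt (P.q r 1) ≤ ρ * P.q r 1) (m : ℕ) :
    PrG Mk K (Ev P I X B B' m (EvA' r))
      ((P.q r 0 * P.q r 1 : ℕ) * (P.W r * P.q r 1) * ρ ^ (m + 1)) :=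
  prA_aux true hP hT hMk hK B B' hρ hr h1 m

theorem prB (hP : P.Ok Mk) (hT : Tg P I X Ir) (hMk : ∀ k, 0 < Mk k)
    (hK : ∀ r < P.h, ∀ i, ∀ y ∈ P.Y r, P.key r i y ∈ K ∧ P.key' r i y ∈ K) (B B' : Finset ℕ)
    {ρ : ℝ} (hρ : 0 ≤ ρ) {r : ℕ} (hr : r < P.h)
    (h1 : Ir r * P.A r * P.pc r ≤ ρ) (m : ℕ) :
    PrG Mk K (Ev P I X B B' m (EvB X r)) ((P.q r 0 : ℕ) * P.W r * ρ ^ (m + 1)) := by
  classical
  refine Pool.Agent.Helper88.SL.prB_of hP hT hMk hK B B' hρ hr h1 m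
    (fun w d hd => CC_inv hP hT w hr.le hd) (fun w t _ => ?_)
    (fun w x hx w' hw => tr_mem hP hx hr.le w' (fun t ht y hy i hi =>
      hw t (ht.trans hr) y hy i hi))
  convert countB hP hT w hr.le t

theorem prL (hP : P.Ok Mk) (hT : Tg P I X Ir) (hMk : ∀ k, 0 < Mk k)
    (hK : ∀ r < P.h, ∀ i, ∀ y ∈ P.Y r, P.key r i y ∈ K ∧ P.key' r i y ∈ K) (B B' : Finset ℕ)
    {ρ : ℝ} (hρ : 0 ≤ ρ) (h1 : PP P I X B B' * P.A P.h * P.pc P.h ≤ ρ) (m : ℕ) :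
    PrG Mk K (Ev P I X B B' m (EvL P)) (P.W P.h * ρ ^ (m + 1)) :=
  Pool.Agent.Helper82.SL.prL_of hP hMk hK B B' hρ
    (fun w => (countL hP hT w B B').trans
      (mul_le_mul_of_nonneg_right h1 (W_nonneg P P.h)))
    (fun _ _ hx w' hw => tr_mem hP hx le_rfl w' hw) m

omit [DecidableEq κ] in
theorem extract (hP : P.Ok Mk) (hT : Tg P I X Ir) {w : κ → ℕ} {B B' : Finset ℕ} {m : ℕ}
    (hm : 1 ≤ m) (h : Many P w I X B B' ((m + 1) ^ 2 ^ (4 * P.h))) :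
    Ev P I X B B' m (EvL P) w ∨ ∃ r < P.h, Ev P I X B B' m (EvA r) w ∨
      Ev P I X B B' m (EvA' r) w ∨ (1 ≤ r ∧ Ev P I X B B' m (EvB X r) w) :=
  Pool.Agent.Helper50.SL.extract_of hT
    (fun _ _ hx hy _ hr a b => Pool.Agent.Helper64.SL.TT_const hP hT hx hy hr a b) hm h

/-- **THE STATIC BLOCK** -/
theorem static_block (hP : P.Ok Mk) (hT : Tg P I X Ir) (hMk : ∀ k, 0 < Mk k)
    (hK : ∀ r < P.h, ∀ i, ∀ y ∈ P.Y r, P.key r i y ∈ K ∧ P.key' r i y ∈ K) (B B' : Finset ℕ)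
    {ρ Γ : ℝ} (hρ : 0 ≤ ρ)
    (hA : ∀ r < P.h, 80 * I * P.A r * P.p r 0 * P.p r 2 * Real.sqrt (P.q r 1) ≤ ρ * P.q r 1)
    (hB : ∀ r < P.h, 1 ≤ r → Ir r * P.A r * P.pc r ≤ ρ)
    (hL : PP P I X B B' * P.A P.h * P.pc P.h ≤ ρ)
    (hΓ : ∀ r < P.h, (P.q r 0 * P.q r 1 : ℕ) * (P.W r * P.q r 1) ≤ Γ) (hΓ' : P.W P.h ≤ Γ)
    {m : ℕ} (hm : 1 ≤ m) :
    PrG Mk K (fun w => Many P w I X B B' ((m + 1) ^ 2 ^ (4 * P.h)))
      ((3 * P.h + 1) * Γ * ρ ^ (m + 1)) := by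
  classical
  have hΓ0 : 0 ≤ Γ := le_trans (W_nonneg P P.h) hΓ'
  have hρm : (0 : ℝ) ≤ ρ ^ (m + 1) := by positivity
  have e1 : PrG Mk K (fun w => ∃ r ∈ range P.h, Ev P I X B B' m (EvA r) w ∨
      Ev P I X B B' m (EvA' r) w ∨ (1 ≤ r ∧ Ev P I X B B' m (EvB X r) w))
      (∑ _r ∈ range P.h, 3 * (Γ * ρ ^ (m + 1))) := by
    refine PrG_exists _ (fun r hr => ?_)
    have hr' := mem_range.1 hr
    have a1 : PrG Mk K (Ev P I X B B' m (EvA r)) (Γ * ρ ^ (m + 1)) :=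
      PrG_mono (fun _ _ h => h) (mul_le_mul_of_nonneg_right (hΓ r hr') hρm)
        (prA hP hT hMk hK B B' hρ hr' (hA r hr') m)
    have a2 : PrG Mk K (Ev P I X B B' m (EvA' r)) (Γ * ρ ^ (m + 1)) :=
      PrG_mono (fun _ _ h => h) (mul_le_mul_of_nonneg_right (hΓ r hr') hρm)
        (prA' hP hT hMk hK B B' hρ hr' (hA r hr') m)
    have a3 : PrG Mk K (fun w => 1 ≤ r ∧ Ev P I X B B' m (EvB X r) w) (Γ * ρ ^ (m + 1)) := by
      by_cases h1 : 1 ≤ r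
      · refine PrG_mono (fun _ _ h => h.2) (mul_le_mul_of_nonneg_right ?_ hρm)
          (prB hP hT hMk hK B B' hρ hr' (hB r hr' h1) m)
        refine le_trans ?_ (hΓ r hr')
        have hW : 0 ≤ P.W r := W_nonneg P r
        have hq : (1 : ℝ) ≤ (P.q r 1 : ℝ) := by
          exact_mod_cast Nat.one_le_iff_ne_zero.2 (pow_pos (hP.prime r 1).pos _).ne'
        push_cast
        have h2 : (0 : ℝ) ≤ (P.q r 0 : ℝ) := Nat.cast_nonneg _
        have h3 : (P.q r 0 : ℝ) * P.W r ≤ (P.q r 0 : ℝ) * P.W r * (P.q r 1 * P.q r 1) := by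
          have h4 : (1 : ℝ) ≤ (P.q r 1 : ℝ) * P.q r 1 := by nlinarith
          have h5 : 0 ≤ (P.q r 0 : ℝ) * P.W r := mul_nonneg h2 hW
          nlinarith
        calc (P.q r 0 : ℝ) * P.W r ≤ (P.q r 0 : ℝ) * P.W r * (P.q r 1 * P.q r 1) := h3
          _ = (P.q r 0 : ℝ) * P.q r 1 * (P.W r * P.q r 1) := by ring
      · exact PrG_false (fun _ _ h => h1 h.1) (mul_nonneg hΓ0 hρm)
    have a4 := PrG_or a1 (PrG_or a2 a3)
    refine PrG_mono (fun _ _ h => h) (le_of_eq ?_) a4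
    ring
  have e2 : PrG Mk K (Ev P I X B B' m (EvL P)) (Γ * ρ ^ (m + 1)) :=
    PrG_mono (fun _ _ h => h) (mul_le_mul_of_nonneg_right hΓ' hρm)
      (prL hP hT hMk hK B B' hρ hL m)
  refine PrG_mono ?_ (le_of_eq ?_) (PrG_or e2 e1)
  · intro r _ h
    rcases extract hP hT hm h with h | ⟨s, hs, h⟩
    · exact Or.inl h
    · exact Or.inr ⟨s, mem_range.2 hs, h⟩
  · rw [Finset.sum_const, card_range, nsmul_eq_mul]
    ring

end Pool.Agent.Helper22.SL
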