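import Pool.Agent.Helper29.T4.Pin

/-!
# Probabilities on finite sets of keys, generic version (after helper53)

`PrG Mk K B ε`: the property `B` has probability at most `ε` when the keys of `K` are uniform
(the key `k` has `Mk k` values) and all other keys are `0`.
-/

namespace Pool.Agent.Helper22.SL

open Finset

variable {Key : Type*} [DecidableEq Key] {Mk : Key → ℕ}

/-- extension of a function on a finite set of keys by zero -/
def ext (K : Finset Key) (r : K → ℕ) : Key → ℕ := fun k => if h : k ∈ K then r ⟨k, h⟩ else 0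

/-- the finite probability space of the keys in `K` -/
def OmK (Mk : Key → ℕ) (K : Finset Key) : Finset (K → ℕ) :=
  Pool.Agent.Helper29.T4.Om (fun k : K => Mk k.1)

open Classical in
/-- the property `B` has probability at most `ε` when the keys in `K` are uniform -/
def PrG (Mk : Key → ℕ) (K : Finset Key) (B : (Key → ℕ) → Prop) (ε : ℝ) : Prop :=
  (((OmK Mk K).filter (fun r => B (ext K r))).card : ℝ) ≤ ε * ((OmK Mk K).card : ℝ)

/-- `w0` on the keys of `K0`, `w` elsewhere -/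
def glue (K0 : Finset Key) (w0 w : Key → ℕ) : Key → ℕ := fun k => if k ∈ K0 then w0 k else w k

theorem glue_mem (K0 : Finset Key) (w0 w : Key → ℕ) {k : Key} (hk : k ∈ K0) :
    glue K0 w0 w k = w0 k := by simp [glue, hk]

theorem glue_not_mem (K0 : Finset Key) (w0 w : Key → ℕ) {k : Key} (hk : k ∉ K0) :
    glue K0 w0 w k = w k := by simp [glue, hk]

theorem ext_mem {K : Finset Key} (r : K → ℕ) {k : Key} (hk : k ∈ K) : ext K r k = r ⟨k, hk⟩ := by
  simp [ext, hk]

theorem ext_not_mem {K : Finset Key} (r : K → ℕ) {k : Key} (hk : k ∉ K) : ext K r k = 0 := by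
  simp [ext, hk]

theorem mem_OmK {K : Finset Key} (r : K → ℕ) : r ∈ OmK Mk K ↔ ∀ k : K, r k < Mk k.1 := by
  unfold OmK Pool.Agent.Helper29.T4.Om
  rw [Fintype.mem_piFinset]
  simp

theorem ext_lt (hM : ∀ k, 0 < Mk k) {K : Finset Key} {r : K → ℕ} (hr : r ∈ OmK Mk K) (k : Key) :
    ext K r k < Mk k := by
  by_cases hk : k ∈ K
  · rw [ext_mem r hk]; exact (mem_OmK r).1 hr ⟨k, hk⟩
  · rw [ext_not_mem r hk]; exact hM k

theorem OmK_nonempty (hM : ∀ k, 0 < Mk k) (K : Finset Key) : (OmK Mk K).Nonempty :=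
  ⟨fun _ => 0, (mem_OmK _).2 fun k => hM k.1⟩

theorem card_OmK_pos (hM : ∀ k, 0 < Mk k) (K : Finset Key) :
    (0 : ℝ) < ((OmK Mk K).card : ℝ) := by
  exact_mod_cast (OmK_nonempty hM K).card_pos

/-- restriction of an assignment -/
def res {K0 K : Finset Key} (h : K0 ⊆ K) (r : K → ℕ) : K0 → ℕ := fun k => r ⟨k.1, h k.2⟩

/-- joining two assignments -/
def join {K0 K : Finset Key} (r0 : K0 → ℕ) (r1 : (K \ K0 : Finset Key) → ℕ) : K → ℕ :=
  fun k => if h : k.1 ∈ K0 then r0 ⟨k.1, h⟩ else r1 ⟨k.1, Finset.mem_sdiff.2 ⟨k.2, h⟩⟩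

theorem ext_join {K0 K : Finset Key} (h : K0 ⊆ K) (r0 : K0 → ℕ)
    (r1 : (K \ K0 : Finset Key) → ℕ) :
    ext K (join r0 r1) = glue K0 (ext K0 r0) (ext (K \ K0) r1) := by
  funext k
  by_cases hk : k ∈ K0
  · rw [glue_mem _ _ _ hk, ext_mem _ (h hk), ext_mem _ hk]
    simp [join, hk]
  · rw [glue_not_mem _ _ _ hk]
    by_cases hK : k ∈ K
    · rw [ext_mem _ hK, ext_mem _ (Finset.mem_sdiff.2 ⟨hK, hk⟩)]
      simp [join, hk]
    · rw [ext_not_mem _ hK, ext_not_mem]
      rw [Finset.mem_sdiff]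
      tauto

open Classical in
/-- the count of an event in `K` is the sum of the conditional counts -/
theorem card_split {K0 K : Finset Key} (h : K0 ⊆ K) (B : (Key → ℕ) → Prop) :
    ((OmK Mk K).filter (fun r => B (ext K r))).card
      = ∑ r0 ∈ OmK Mk K0, ((OmK Mk (K \ K0)).filter
          (fun r1 => B (glue K0 (ext K0 r0) (ext (K \ K0) r1)))).card := by
  rw [← Finset.card_sigma]
  refine Finset.card_nbij'
    (fun r => (⟨res h r, res Finset.sdiff_subset r⟩ :
      Σ _ : (K0 → ℕ), ((K \ K0 : Finset Key) → ℕ)))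
    (fun p => join p.1 p.2) ?_ ?_ ?_ ?_
  · intro r hr
    rw [Finset.mem_coe, Finset.mem_filter] at hr
    rw [Finset.mem_coe, Finset.mem_sigma]
    have hr1 := (mem_OmK r).1 hr.1
    refine ⟨(mem_OmK _).2 fun k => hr1 ⟨k.1, h k.2⟩, ?_⟩
    rw [Finset.mem_filter]
    refine ⟨(mem_OmK _).2 fun k => hr1 ⟨k.1, Finset.sdiff_subset k.2⟩, ?_⟩
    rw [← ext_join h]
    have : join (K0 := K0) (K := K) (res h r) (res Finset.sdiff_subset r) = r := by
      funext k
      by_cases hk : k.1 ∈ K0 <;> simp [join, res, hk]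
    rw [this]
    exact hr.2
  · intro p hp
    rw [Finset.mem_coe, Finset.mem_sigma, Finset.mem_filter] at hp
    rw [Finset.mem_coe, Finset.mem_filter]
    have h0 := (mem_OmK _).1 hp.1
    have h1 := (mem_OmK _).1 hp.2.1
    refine ⟨(mem_OmK _).2 fun k => ?_, ?_⟩
    · by_cases hk : k.1 ∈ K0
      · simpa [join, hk] using h0 ⟨k.1, hk⟩
      · simpa [join, hk] using h1 ⟨k.1, Finset.mem_sdiff.2 ⟨k.2, hk⟩⟩
    · rw [ext_join h]; exact hp.2.2
  · intro r _
    funext k
    by_cases hk : k.1 ∈ K0 <;> simp [join, res, hk]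
  · rintro ⟨r0, r1⟩ _
    have e0 : res h (join (K0 := K0) (K := K) r0 r1) = r0 := by
      funext k
      simp [join, res]
    have e1 : res Finset.sdiff_subset (join (K0 := K0) (K := K) r0 r1) = r1 := by
      funext k
      have hk : k.1 ∉ K0 := (Finset.mem_sdiff.1 k.2).2
      simp [join, res, hk]
    simp only [e0, e1]

theorem card_OmK_split {K0 K : Finset Key} (h : K0 ⊆ K) :
    (OmK Mk K).card = (OmK Mk K0).card * (OmK Mk (K \ K0)).card := by
  classical
  have h1 := card_split (Mk := Mk) h (fun _ => True)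
  simpa using h1

/-- `PrG` with any instance of decidability -/
theorem PrG_iff {K : Finset Key} {B : (Key → ℕ) → Prop} {ε : ℝ}
    [DecidablePred fun r : K → ℕ => B (ext K r)] :
    PrG Mk K B ε ↔ (((OmK Mk K).filter (fun r => B (ext K r))).card : ℝ) ≤ ε * ((OmK Mk K).card : ℝ) := by
  unfold PrG
  constructor <;> intro h <;> convert h

theorem PrG_mono {K : Finset Key} {B B' : (Key → ℕ) → Prop} {ε ε' : ℝ}
    (hB : ∀ r ∈ OmK Mk K, B' (ext K r) → B (ext K r)) (hε : ε ≤ ε') (h : PrG Mk K B ε) :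
    PrG Mk K B' ε' := by
  classical
  unfold PrG at h ⊢
  refine le_trans ?_ (h.trans (mul_le_mul_of_nonneg_right hε (Nat.cast_nonneg _)))
  exact_mod_cast Finset.card_le_card fun r hr => by
    rw [Finset.mem_filter] at hr ⊢
    exact ⟨hr.1, hB r hr.1 hr.2⟩

theorem PrG_or {K : Finset Key} {B B' : (Key → ℕ) → Prop} {ε ε' : ℝ}
    (h : PrG Mk K B ε) (h' : PrG Mk K B' ε') : PrG Mk K (fun w => B w ∨ B' w) (ε + ε') := by
  classical
  rw [PrG_iff] at h h'
  refine (PrG_iff (K := K) (B := fun w => B w ∨ B' w)).2 ?_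
  rw [add_mul]
  refine le_trans ?_ (add_le_add h h')
  have e : ((OmK Mk K).filter (fun r => B (ext K r) ∨ B' (ext K r))).card
      ≤ ((OmK Mk K).filter (fun r => B (ext K r))).card
        + ((OmK Mk K).filter (fun r => B' (ext K r))).card := by
    rw [Finset.filter_or]
    exact Finset.card_union_le _ _
  exact_mod_cast e

theorem PrG_exists {ι : Type*} {K : Finset Key} (I : Finset ι) {B : ι → (Key → ℕ) → Prop}
    {ε : ι → ℝ} (h : ∀ i ∈ I, PrG Mk K (B i) (ε i)) :
    PrG Mk K (fun w => ∃ i ∈ I, B i w) (∑ i ∈ I, ε i) := by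
  classical
  have h' : ∀ i ∈ I, (((OmK Mk K).filter (fun r => B i (ext K r))).card : ℝ)
      ≤ ε i * ((OmK Mk K).card : ℝ) := fun i hi => PrG_iff.1 (h i hi)
  refine (PrG_iff (K := K) (B := fun w => ∃ i ∈ I, B i w)).2 ?_
  rw [Finset.sum_mul]
  refine le_trans ?_ (Finset.sum_le_sum h')
  have e : ((OmK Mk K).filter (fun r => ∃ i ∈ I, B i (ext K r))).card
      ≤ ∑ i ∈ I, ((OmK Mk K).filter (fun r => B i (ext K r))).card := by
    have : (OmK Mk K).filter (fun r => ∃ i ∈ I, B i (ext K r))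
        = I.biUnion (fun i => (OmK Mk K).filter (fun r => B i (ext K r))) := by
      apply Finset.ext
      intro r
      simp only [Finset.mem_filter, Finset.mem_biUnion]
      tauto
    rw [this]
    exact Finset.card_biUnion_le
  exact_mod_cast e

theorem PrG_false {K : Finset Key} {B : (Key → ℕ) → Prop}
    (h : ∀ r ∈ OmK Mk K, ¬ B (ext K r)) {ε : ℝ} (hε : 0 ≤ ε) : PrG Mk K B ε := by
  classical
  unfold PrG
  rw [Finset.filter_false_of_mem h]
  simpa using mul_nonneg hε (Nat.cast_nonneg _)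

theorem PrG_one (K : Finset Key) (B : (Key → ℕ) → Prop) {ε : ℝ} (hε : 1 ≤ ε) : PrG Mk K B ε := by
  classical
  unfold PrG
  have : (((OmK Mk K).filter (fun r => B (ext K r))).card : ℝ) ≤ ((OmK Mk K).card : ℝ) := by
    exact_mod_cast Finset.card_filter_le _ _
  have h0 : (0 : ℝ) ≤ ((OmK Mk K).card : ℝ) := Nat.cast_nonneg _
  nlinarith

/-- CONDITIONING: outside a bad event `A` of the keys in `K0`, the conditional probability of
`B` (keys in `K0` fixed, keys in `K \ K0` random) is at most `ε` -/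
theorem PrG_cond_bad {K0 K : Finset Key} (h : K0 ⊆ K) {A B : (Key → ℕ) → Prop} {δ ε : ℝ}
    (hε : 0 ≤ ε) (hA : PrG Mk K0 A δ)
    (hB : ∀ r0 ∈ OmK Mk K0, ¬ A (ext K0 r0) →
      PrG Mk (K \ K0) (fun w => B (glue K0 (ext K0 r0) w)) ε) :
    PrG Mk K B (δ + ε) := by
  classical
  unfold PrG at hA hB ⊢
  rw [card_split h B]
  push_cast
  have hn : (0 : ℝ) ≤ ((OmK Mk (K \ K0)).card : ℝ) := Nat.cast_nonneg _
  have h1 : ∀ r0 ∈ OmK Mk K0, (((OmK Mk (K \ K0)).filter
      (fun r1 => B (glue K0 (ext K0 r0) (ext (K \ K0) r1)))).card : ℝ)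
      ≤ (if A (ext K0 r0) then ((OmK Mk (K \ K0)).card : ℝ) else 0)
        + ε * ((OmK Mk (K \ K0)).card : ℝ) := by
    intro r0 hr0
    by_cases hAr : A (ext K0 r0)
    · rw [if_pos hAr]
      have : (((OmK Mk (K \ K0)).filter
          (fun r1 => B (glue K0 (ext K0 r0) (ext (K \ K0) r1)))).card : ℝ)
          ≤ ((OmK Mk (K \ K0)).card : ℝ) := by exact_mod_cast Finset.card_filter_le _ _
      nlinarith
    · rw [if_neg hAr, zero_add]
      exact hB r0 hr0 hAr
  refine (Finset.sum_le_sum h1).trans ?_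
  rw [Finset.sum_add_distrib, Finset.sum_const, nsmul_eq_mul, ← Finset.sum_filter,
    Finset.sum_const, nsmul_eq_mul, card_OmK_split h]
  push_cast
  have h2 := mul_le_mul_of_nonneg_right hA hn
  nlinarith [h2]

/-- CONDITIONING without a bad event -/
theorem PrG_cond {K0 K : Finset Key} (h : K0 ⊆ K) {B : (Key → ℕ) → Prop} {ε : ℝ}
    (hε : 0 ≤ ε)
    (hB : ∀ r0 ∈ OmK Mk K0, PrG Mk (K \ K0) (fun w => B (glue K0 (ext K0 r0) w)) ε) :
    PrG Mk K B ε := by
  have := PrG_cond_bad h (A := fun _ => False) (δ := 0) hε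
    (PrG_false (fun _ _ => not_false) le_rfl) (fun r0 hr0 _ => hB r0 hr0)
  simpa using this

/-- the event depends only on the keys of `K0` -/
def DepOn (K0 : Finset Key) (B : (Key → ℕ) → Prop) : Prop :=
  ∀ w w' : Key → ℕ, (∀ k ∈ K0, w k = w' k) → (B w ↔ B w')

/-- an event which depends only on the keys of `K0` has the same probability in `K0` and in
every larger set of keys -/
theorem PrG_of_dep {K0 K : Finset Key} (h : K0 ⊆ K) {B : (Key → ℕ) → Prop} {ε : ℝ}
    (hdep : DepOn K0 B) (hB : PrG Mk K0 B ε) : PrG Mk K B ε := by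
  have := PrG_cond_bad h (A := B) (B := B) (ε := 0) le_rfl hB (by
    intro r0 _ hn
    refine PrG_false (fun r1 _ hB1 => hn ?_) le_rfl
    refine (hdep _ _ fun k hk => ?_).1 hB1
    exact glue_mem _ _ _ hk)
  simpa using this

theorem PrG_dep_iff (hM : ∀ k, 0 < Mk k) {K0 K : Finset Key} (h : K0 ⊆ K) {B : (Key → ℕ) → Prop} {ε : ℝ}
    (hdep : DepOn K0 B) : PrG Mk K B ε ↔ PrG Mk K0 B ε := by
  classical
  refine ⟨fun hK => ?_, PrG_of_dep h hdep⟩
  unfold PrG at hK ⊢
  rw [card_split h B, card_OmK_split h] at hK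
  have h1 : ∀ r0 ∈ OmK Mk K0, ((OmK Mk (K \ K0)).filter
      (fun r1 => B (glue K0 (ext K0 r0) (ext (K \ K0) r1)))).card
      = if B (ext K0 r0) then (OmK Mk (K \ K0)).card else 0 := by
    intro r0 _
    have hiff : ∀ r1, B (glue K0 (ext K0 r0) (ext (K \ K0) r1)) ↔ B (ext K0 r0) := fun r1 =>
      hdep _ _ fun k hk => glue_mem _ _ _ hk
    by_cases hb : B (ext K0 r0)
    · rw [if_pos hb, Finset.filter_true_of_mem fun r1 _ => (hiff r1).2 hb]
    · rw [if_neg hb, Finset.filter_false_of_mem fun r1 _ h' => hb ((hiff r1).1 h')]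
      rfl
  rw [Finset.sum_congr rfl h1, ← Finset.sum_filter, Finset.sum_const, smul_eq_mul] at hK
  push_cast at hK
  have hpos := card_OmK_pos hM (K \ K0)
  have : (((OmK Mk K0).filter (fun r => B (ext K0 r))).card : ℝ) * ((OmK Mk (K \ K0)).card : ℝ)
      ≤ (ε * ((OmK Mk K0).card : ℝ)) * ((OmK Mk (K \ K0)).card : ℝ) := by linarith
  exact le_of_mul_le_mul_right this hpos

/-- only the values on `K` matter for `PrG K` -/
theorem PrG_congr {K : Finset Key} {B B' : (Key → ℕ) → Prop} {ε : ℝ}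
    (hB : ∀ r ∈ OmK Mk K, (B (ext K r) ↔ B' (ext K r))) : PrG Mk K B ε ↔ PrG Mk K B' ε :=
  ⟨PrG_mono (fun r hr => (hB r hr).2) le_rfl, PrG_mono (fun r hr => (hB r hr).1) le_rfl⟩

/-- expectation form: if the mean number of `i ∈ I` with `B i` is at most `μ` then
`PrG Mk K (∃ i, B i) μ` -/
theorem PrG_of_forall_card {ι : Type*} {K : Finset Key} (I : Finset ι)
    (B : ι → (Key → ℕ) → Prop) (p : ι → ℝ) (μ : ℝ) (hμ : ∑ i ∈ I, p i ≤ μ)
    (h : ∀ i ∈ I, PrG Mk K (B i) (p i)) : PrG Mk K (fun w => ∃ i ∈ I, B i w) μ :=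
  PrG_mono (fun _ _ hw => hw) hμ (PrG_exists I h)

/-- existence: finitely many bad events of total probability less than one -/
theorem exists_of_PrG (hM : ∀ k, 0 < Mk k) {K : Finset Key} {B : (Key → ℕ) → Prop} {ε : ℝ} (hε : ε < 1)
    (h : PrG Mk K B ε) : ∃ w : Key → ℕ, (∀ k, w k < Mk k) ∧ ¬ B w := by
  classical
  by_contra hcon
  push Not at hcon
  unfold PrG at h
  rw [Finset.filter_true_of_mem fun r hr => hcon _ fun k => ext_lt hM hr k] at h
  nlinarith [card_OmK_pos hM K]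

/-- values of finitely many distinct keys of `K`: probability at most the product of the
inverses of the numbers of values -/
theorem PrG_pin (hM : ∀ k, 0 < Mk k) {K S : Finset Key} (hS : S ⊆ K) (v : Key → ℕ) :
    PrG Mk K (fun w => ∀ k ∈ S, w k = v k) (∏ k ∈ S, ((Mk k : ℝ))⁻¹) := by
  classical
  have h0 := Pool.Agent.Helper29.T4.pin_real (fun k : K => Mk k.1) (fun k => hM k.1)
    (S.attach.image fun k => (⟨k.1, hS k.2⟩ : K)) (fun k => v k.1)
  refine (PrG_iff (K := K) (B := fun w => ∀ k ∈ S, w k = v k)).2 ?_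
  rw [mul_comm]
  have h1 : ∏ k ∈ S.attach.image (fun k => (⟨k.1, hS k.2⟩ : K)), ((Mk k.1 : ℝ))⁻¹
      = ∏ k ∈ S, ((Mk k : ℝ))⁻¹ := by
    rw [Finset.prod_image (by
      intro a _ b _ hab
      exact Subtype.ext (by simpa using congrArg (fun z : K => z.1) hab))]
    exact Finset.prod_attach S fun k => ((Mk k : ℝ))⁻¹
  rw [h1] at h0
  refine le_trans ?_ h0
  have : ∀ (F G : Finset (K → ℕ)), F ⊆ G → ((F.card : ℕ) : ℝ) ≤ ((G.card : ℕ) : ℝ) :=
    fun F G hFG => by exact_mod_cast Finset.card_le_card hFG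
  refine this _ _ ?_
  intro r hr
  rw [Finset.mem_filter] at hr
  refine Finset.mem_filter.2 ?_
  refine ⟨hr.1, fun k hk => ?_⟩
  rw [Finset.mem_image] at hk
  obtain ⟨k', _, rfl⟩ := hk
  have := hr.2 k'.1 k'.2
  rwa [ext_mem r (hS k'.2)] at this

end Pool.Agent.Helper22.SL
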