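import Pool.Agent.Helper22.SL.Tuple
import Pool.Agent.Helper22.HW.Static
import Pool.Agent.Helper73.T5.SAdm

/-!
# T5, block SL (static levels): definitions

A pair of states with a common front `F 0 = F' 0`.  Below it there are `h` static levels; level
`r < h` has the primes `p r 0, p r 1, p r 2` (families F, O1, O2 of the plan), the exponents `z r`,
the modulus `Q r`, and the fronts `F (r+1)`, `F' (r+1)` of the two states.  The code of `y` in the
level `r` is the number `c < F (r+1) * L (r+1)`, divisible by `F (r+1) * L r`, with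
`c = Lg (y i) + hash` modulo `p r i ^ z r i`.  The windows of the levels below `h` are arbitrary
finite sets `B`, `B'`.
-/

namespace Pool.Agent.Helper22.SL

open Finset Pool.Agent.Helper27.T4 Pool.Agent.Helper29.T4 Pool.Agent.Helper22.HW

/-- the data of a pair of states with a common front -/
structure Pr (κ : Type*) where
  /-- number of levels -/
  h : ℕ
  /-- primes -/
  p : ℕ → Fin 3 → ℕ
  /-- exponents -/
  z : ℕ → Fin 3 → ℕ
  /-- modulus of the label level of the upper state -/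
  M : ℕ
  /-- modulus of the label level of the lower state -/
  M' : ℕ
  /-- product of the moduli of the static levels above the common front -/
  L0 : ℕ
  /-- fronts of the upper state -/
  F : ℕ → ℕ
  /-- fronts of the lower state -/
  F' : ℕ → ℕ
  /-- admissible vectors -/
  Y : ℕ → Finset (Fin 3 → ℕ)
  /-- keys of the upper state -/
  key : ℕ → Fin 3 → (Fin 3 → ℕ) → κ
  /-- keys of the lower state -/
  key' : ℕ → Fin 3 → (Fin 3 → ℕ) → κ

variable {κ : Type*}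

namespace Pr

variable (P : Pr κ)

/-- modulus of the level `r` -/
def Q (r : ℕ) : ℕ := NN (P.p r) (P.z r)

/-- product of the moduli of the levels before `r` -/
def L (r : ℕ) : ℕ := P.L0 * ∏ t ∈ range r, P.Q t

/-- the modulus of one family -/
def q (r : ℕ) (i : Fin 3) : ℕ := P.p r i ^ P.z r i

/-- level `r` of the upper state -/
def S (r : ℕ) : Side (P.p r) κ := ⟨P.F (r + 1) * P.L r, P.z r, P.z r, P.key r⟩

/-- level `r` of the lower state -/
def S' (r : ℕ) : Side (P.p r) κ := ⟨P.F' (r + 1) * P.L r, P.z r, P.z r, P.key' r⟩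

end Pr

/-- the rank of a family -/
def rk3 (i : Fin 3) : ℕ := i.val

/-- requirements -/
structure Pr.Ok (P : Pr κ) (Mk : κ → ℕ) : Prop where
  prime : ∀ r i, (P.p r i).Prime
  odd : ∀ r i, P.p r i ≠ 2
  inj : ∀ r, Function.Injective (P.p r)
  sok : ∀ r < P.h, (P.S r).Ok rk3 Mk
  sok' : ∀ r < P.h, (P.S' r).Ok rk3 Mk
  adm : ∀ r, Pool.Agent.Helper73.T5.SAdm (P.p r) (P.z r) (P.Y r)
  kd : ∀ r r', r ≠ r' → ∀ i y i' y', P.key r i y ≠ P.key r' i' y'
  kd' : ∀ r r', r ≠ r' → ∀ i y i' y', P.key' r i y ≠ P.key' r' i' y'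
  kdd' : ∀ r r' i y i' y', P.key r i y ≠ P.key' r' i' y'
  com : P.F 0 = P.F' 0
  posF : 0 < P.F 0
  posM' : 0 < P.M'
  posL : 0 < P.L0
  M'M : P.M' ∣ P.M
  MF : ∀ r ≤ P.h, P.M ∣ P.F r
  M'F' : ∀ r ≤ P.h, P.M' ∣ P.F' r
  F'F : ∀ r ≤ P.h, P.F' r ∣ P.F r
  FF : ∀ r < P.h, P.F (r + 1) ∣ P.F r
  F'F' : ∀ r < P.h, P.F' (r + 1) ∣ P.F' r
  copL : ∀ r ≤ P.h, (P.L r).Coprime (P.F 0)
  /-- the ranges at least double -/
  size : ∀ r < P.h, 2 * (P.F r * P.L r) ≤ P.F (r + 1) * P.L (r + 1)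
  /-- the family `0` of the level `r` sees the whole window of targets -/
  zF : ∀ r < P.h, 6 * P.F r < P.M' * P.q r 0
  /-- the family `2` of a level which is not the last one covers the whole jump -/
  mid : ∀ r, r + 1 < P.h → P.F (r + 1) ≤ P.F' (r + 1) * P.q r 2

/-- the targets: `X i`, `i < I`; `Ir r` bounds the number of labels in a class modulo `F' r` -/
structure Tg (P : Pr κ) (I : ℕ) (X : ℕ → ℕ) (Ir : ℕ → ℕ) : Prop where
  dvd : ∀ i < I, P.M' * P.L0 ∣ X i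
  inj : ∀ i < I, ∀ j < I, X i = X j → i = j
  win : ∀ i < I, ∀ j < I, X i < X j + P.F 0 * P.L0
  cls : ∀ r ≤ P.h, ∀ c, ((range I).filter (fun i => X i % P.F' r = c % P.F' r)).card ≤ Ir r

/-- the data of one level: the two vectors and the two codes -/
abbrev Lv : Type := ((Fin 3 → ℕ) × (Fin 3 → ℕ)) × (ℕ × ℕ)

/-- default -/
def lv0 : Lv := ((fun _ => 0, fun _ => 0), (0, 0))

/-- label and the data of the levels -/
abbrev Dt : Type := ℕ × (ℕ → Lv)

/-- the levels before `r` -/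
def tr (r : ℕ) (d : Dt) : Dt := (d.1, fun t => if t < r then d.2 t else lv0)

/-- the target after the levels `< r` -/
def TT (X : ℕ → ℕ) (d : Dt) : ℕ → ℕ
  | 0 => X d.1
  | r + 1 => TT X d r - ((d.2 r).2.1 + (d.2 r).2.2)

/-- the data `ℓ` of the level `r` fit to the target `t`; the components in `N`, `N'` of the two
codes are those given by the keys `w` -/
structure Lok (P : Pr κ) (w : κ → ℕ) (N N' : Finset (Fin 3)) (r t : ℕ) (ℓ : Lv) : Prop where
  y : ℓ.1.1 ∈ P.Y r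
  y' : ℓ.1.2 ∈ P.Y r
  lt : ℓ.2.1 < P.F (r + 1) * P.L (r + 1)
  lt' : ℓ.2.2 < P.F' (r + 1) * P.L (r + 1)
  dvd : P.F (r + 1) * P.L r ∣ ℓ.2.1
  dvd' : P.F' (r + 1) * P.L r ∣ ℓ.2.2
  cmp : ∀ i ∈ N, ((ℓ.2.1 : ℕ) : ZMod (P.p r i ^ P.z r i)) =
    Lg (P.p r i) (P.z r i) (ℓ.1.1 i) + ((w (P.key r i ℓ.1.1) : ℕ) : ZMod (P.p r i ^ P.z r i))
  cmp' : ∀ i ∈ N', ((ℓ.2.2 : ℕ) : ZMod (P.p r i ^ P.z r i)) =
    Lg (P.p r i) (P.z r i) (ℓ.1.2 i) + ((w (P.key' r i ℓ.1.2) : ℕ) : ZMod (P.p r i ^ P.z r i))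
  le : ℓ.2.1 + ℓ.2.2 ≤ t
  tdvd : P.M' * P.L (r + 1) ∣ t - (ℓ.2.1 + ℓ.2.2)

/-- all possible data of the level `r` -/
def box (P : Pr κ) (r : ℕ) : Finset Lv :=
  (P.Y r ×ˢ P.Y r) ×ˢ (range (P.F (r + 1) * P.L (r + 1)) ×ˢ range (P.F' (r + 1) * P.L (r + 1)))

open Classical in
/-- the data of the levels `< r` whose components of the families 0 and 1 are given by `w` -/
noncomputable def CC (P : Pr κ) (w : κ → ℕ) (I : ℕ) (X : ℕ → ℕ) : ℕ → Finset Dt
  | 0 => (range I).image (fun i => (i, fun _ => lv0))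
  | r + 1 => ((CC P w I X r ×ˢ box P r).filter
      (fun q => Lok P w {0, 1} {0, 1} r (TT X q.1 r) q.2)).image
        (fun q => (q.1.1, Function.update q.1.2 r q.2))

/-- a hit: data of all levels, all components given by `w`, and windows `b`, `b'` -/
structure Hit (P : Pr κ) (w : κ → ℕ) (I : ℕ) (X : ℕ → ℕ) (B B' : Finset ℕ)
    (x : Dt × (ℕ × ℕ)) : Prop where
  lab : x.1.1 < I
  lev : ∀ t < P.h, Lok P w univ univ t (TT X x.1 t) (x.1.2 t)
  b : x.2.1 ∈ B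
  b' : x.2.2 ∈ B'
  eq : P.M * P.L P.h * x.2.1 + P.M' * P.L P.h * x.2.2 = TT X x.1 P.h

/-- `N` hits with different labels -/
def Many (P : Pr κ) (w : κ → ℕ) (I : ℕ) (X : ℕ → ℕ) (B B' : Finset ℕ) (N : ℕ) : Prop :=
  ∃ H : Finset (Dt × (ℕ × ℕ)), H.card = N ∧ (∀ x ∈ H, Hit P w I X B B' x) ∧
    ∀ x ∈ H, ∀ y ∈ H, x.1.1 = y.1.1 → x = y

/-! ## numbers -/

/-- product of the constants of the levels `< r` -/
noncomputable def Pr.A (P : Pr κ) (r : ℕ) : ℝ :=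
  ∏ t ∈ range r, (200 * (P.p t 0 : ℝ) * P.p t 1)

/-- product of the fresh moduli of the levels `< r` -/
noncomputable def Pr.W (P : Pr κ) (r : ℕ) : ℝ := ∏ t ∈ range r, ((P.q t 2 : ℕ) : ℝ) ^ 2

/-- the price after the levels `< r` -/
noncomputable def Pr.pc (P : Pr κ) : ℕ → ℝ
  | 0 => 1
  | r + 1 => (P.F' (r + 1) : ℝ) / P.F (r + 1) + 1 / (P.q r 2 : ℝ)

/-- the targets which the label `i` can have after the levels `< r` -/
def AP (P : Pr κ) (X : ℕ → ℕ) (r i : ℕ) : Finset ℕ :=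
  (range (X i + 1)).filter (fun t => P.M' * P.L r ∣ t ∧ t % P.F' r = X i % P.F' r ∧
    X i < t + 4 * (P.F r * P.L r))

/-- the number of pairs of windows which fit to a label -/
def PP (P : Pr κ) (I : ℕ) (X : ℕ → ℕ) (B B' : Finset ℕ) : ℕ :=
  ((range I ×ˢ (B ×ˢ B')).filter
    (fun q => P.M * P.L P.h * q.2.1 + P.M' * P.L P.h * q.2.2 ∈ AP P X P.h q.1)).card

/-! ## events for a set of hits -/

/-- the initial parts (families 0 and 1) of the level `r` of the upper state differ pairwise -/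
def KNe (r : ℕ) (T : Finset (Dt × (ℕ × ℕ))) : Prop :=
  ∀ x ∈ T, ∀ y ∈ T, x ≠ y → PreNe rk3 2 (x.1.2 r).1.1 (y.1.2 r).1.1

/-- the same for the lower state -/
def KNe' (r : ℕ) (T : Finset (Dt × (ℕ × ℕ))) : Prop :=
  ∀ x ∈ T, ∀ y ∈ T, x ≠ y → PreNe rk3 2 (x.1.2 r).1.2 (y.1.2 r).1.2

/-- constant initial part of the upper state, distinct families 0 of the lower state -/
def EvA (r : ℕ) (T : Finset (Dt × (ℕ × ℕ))) : Prop :=
  (∀ t < r, KNe t T ∧ KNe' t T) ∧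
    (∃ a b, ∀ x ∈ T, (x.1.2 r).1.1 0 = a ∧ (x.1.2 r).1.1 1 = b) ∧
    ∀ x ∈ T, ∀ y ∈ T, x ≠ y → (x.1.2 r).1.2 0 ≠ (y.1.2 r).1.2 0

/-- constant initial part of the lower state, distinct families 0 of the upper state -/
def EvA' (r : ℕ) (T : Finset (Dt × (ℕ × ℕ))) : Prop :=
  (∀ t < r, KNe t T ∧ KNe' t T) ∧
    (∃ a b, ∀ x ∈ T, (x.1.2 r).1.2 0 = a ∧ (x.1.2 r).1.2 1 = b) ∧
    ∀ x ∈ T, ∀ y ∈ T, x ≠ y → (x.1.2 r).1.1 0 ≠ (y.1.2 r).1.1 0

/-- constant target before the level `r` -/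
def EvB (X : ℕ → ℕ) (r : ℕ) (T : Finset (Dt × (ℕ × ℕ))) : Prop :=
  (∀ t < r, KNe t T ∧ KNe' t T) ∧ ∃ t0, ∀ x ∈ T, TT X x.1 r = t0

/-- all initial parts are pairwise distinct -/
def EvL (P : Pr κ) (T : Finset (Dt × (ℕ × ℕ))) : Prop := ∀ t < P.h, KNe t T ∧ KNe' t T

/-- `m + 1` hits with different labels and the property `E` -/
def Ev (P : Pr κ) (I : ℕ) (X : ℕ → ℕ) (B B' : Finset ℕ) (m : ℕ)
    (E : Finset (Dt × (ℕ × ℕ)) → Prop) (w : κ → ℕ) : Prop :=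
  ∃ T : Finset (Dt × (ℕ × ℕ)), T.card = m + 1 ∧ (∀ x ∈ T, Hit P w I X B B' x) ∧
    (∀ x ∈ T, ∀ y ∈ T, x.1.1 = y.1.1 → x = y) ∧ E T


end Pool.Agent.Helper22.SL
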