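import Pool.Agent.Helper22.SL.Defs

/-!
# Block SL: the common part of the probability lemmas
-/

namespace Pool.Agent.Helper22.SL

open Finset Pool.Agent.Helper27.T4 Pool.Agent.Helper29.T4 Pool.Agent.Helper22.HW

variable {κ : Type*} {Mk : κ → ℕ} {P : Pr κ}

theorem Pr.L_succ (P : Pr κ) (r : ℕ) : P.L (r + 1) = P.L r * P.Q r := by
  rw [Pr.L, Pr.L, Finset.prod_range_succ, mul_assoc]

/-- the vector of one part -/
def vec (a : ℕ × Bool) (d : Dt) : Fin 3 → ℕ := if a.2 then (d.2 a.1).1.2 else (d.2 a.1).1.1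

/-- the code of one part -/
def cod (a : ℕ × Bool) (d : Dt) : ℕ := if a.2 then (d.2 a.1).2.2 else (d.2 a.1).2.1

/-- one part of the pair of states -/
def part (P : Pr κ) (a : ℕ × Bool) : Side (P.p a.1) κ := if a.2 then P.S' a.1 else P.S a.1

theorem part_e (P : Pr κ) (a : ℕ × Bool) : (part P a).e = P.z a.1 := by
  unfold part
  split_ifs <;> rfl

theorem part_ok (hP : P.Ok Mk) {a : ℕ × Bool} (ha : a.1 < P.h) : (part P a).Ok rk3 Mk := by
  unfold part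
  split_ifs
  · exact hP.sok' _ ha
  · exact hP.sok _ ha

theorem part_disj (hP : P.Ok Mk) {a a' : ℕ × Bool} (h : a ≠ a') (i : Fin 3) (y : Fin 3 → ℕ)
    (i' : Fin 3) (y' : Fin 3 → ℕ) : (part P a).key i y ≠ (part P a').key i' y' := by
  obtain ⟨t, s⟩ := a
  obtain ⟨t', s'⟩ := a'
  cases s <;> cases s'
  · have ht : t ≠ t' := fun he => h (by rw [he])
    exact hP.kd t t' ht i y i' y'
  · exact hP.kdd' t t' i y i' y'
  · exact fun he => hP.kdd' t' t i' y' i y he.symm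
  · have ht : t ≠ t' := fun he => h (by rw [he])
    exact hP.kd' t t' ht i y i' y'

/-- data whose components are all given by the keys are the codes -/
theorem Lok.code (hP : P.Ok Mk) {w : κ → ℕ} {r t : ℕ} (hr : r < P.h) {ℓ : Lv}
    {N' : Finset (Fin 3)} (h : Lok P w univ N' r t ℓ) :
    (P.S r).cd (hP.prime r) (hP.inj r) w ℓ.1.1 = ℓ.2.1 := by
  have hok := hP.sok r hr
  refine eq_of_casts (hP.prime r) (hP.inj r) hok.cop (P.z r) ?_ ?_ ?_ h.dvd ?_
  · exact fc_lt (hP.prime r) (hP.inj r) _ hok.pos (P.z r) _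
  · have := h.lt
    rw [P.L_succ, ← mul_assoc] at this
    exact this
  · exact dvd_fc (hP.prime r) (hP.inj r) _ (P.z r) _
  · intro i
    rw [h.cmp i (mem_univ i)]
    exact fc_cast (hP.prime r) (hP.inj r) _ hok.cop (P.z r)
      (fun i => Lg (P.p r i) ((P.S r).e i) (ℓ.1.1 i) + (P.S r).rho w i ℓ.1.1) i

theorem Lok.code' (hP : P.Ok Mk) {w : κ → ℕ} {r t : ℕ} (hr : r < P.h) {ℓ : Lv}
    {N : Finset (Fin 3)} (h : Lok P w N univ r t ℓ) :
    (P.S' r).cd (hP.prime r) (hP.inj r) w ℓ.1.2 = ℓ.2.2 := by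
  have hok := hP.sok' r hr
  refine eq_of_casts (hP.prime r) (hP.inj r) hok.cop (P.z r) ?_ ?_ ?_ h.dvd' ?_
  · exact fc_lt (hP.prime r) (hP.inj r) _ hok.pos (P.z r) _
  · have := h.lt'
    rw [P.L_succ, ← mul_assoc] at this
    exact this
  · exact dvd_fc (hP.prime r) (hP.inj r) _ (P.z r) _
  · intro i
    rw [h.cmp' i (mem_univ i)]
    exact fc_cast (hP.prime r) (hP.inj r) _ hok.cop (P.z r)
      (fun i => Lg (P.p r i) ((P.S' r).e i) (ℓ.1.2 i) + (P.S' r).rho w i ℓ.1.2) i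

/-- the code of a part of a hit -/
theorem Hit.code (hP : P.Ok Mk) {w : κ → ℕ} {I : ℕ} {X : ℕ → ℕ} {B B' : Finset ℕ}
    {x : Dt × (ℕ × ℕ)} (hx : Hit P w I X B B' x) {a : ℕ × Bool} (ha : a.1 < P.h) :
    (part P a).cd (hP.prime a.1) (hP.inj a.1) w (vec a x.1) = cod a x.1 := by
  have h := hx.lev a.1 ha
  obtain ⟨t, s⟩ := a
  cases s
  · exact h.code hP ha
  · exact h.code' hP ha

theorem vec_mem {w : κ → ℕ} {I : ℕ} {X : ℕ → ℕ} {B B' : Finset ℕ}
    {x : Dt × (ℕ × ℕ)} (hx : Hit P w I X B B' x) {a : ℕ × Bool} (ha : a.1 < P.h) :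
    vec a x.1 ∈ P.Y a.1 := by
  have h := hx.lev a.1 ha
  obtain ⟨t, s⟩ := a
  cases s
  · exact h.y
  · exact h.y'

variable [DecidableEq κ]

/-- the keys off the fresh ones agree -/
def Agr (P : Pr κ) (A : Finset (ℕ × Bool)) (R : ℕ × Bool → Finset (Fin 3)) (w w' : κ → ℕ) : Prop :=
  ∀ a : ℕ × Bool, a.1 < P.h → ∀ y ∈ P.Y a.1, ∀ i : Fin 3, (a ∈ A → i ∉ R a) →
    w' ((part P a).key i y) = w ((part P a).key i y)

/-- **Common part.** -/
theorem prCore (hP : P.Ok Mk) (hMk : ∀ k, 0 < Mk k) {K : Finset κ}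
    (hK : ∀ r < P.h, ∀ i, ∀ y ∈ P.Y r, P.key r i y ∈ K ∧ P.key' r i y ∈ K)
    {I : ℕ} {X : ℕ → ℕ} {B B' : Finset ℕ} {δ : Type*} (A : Finset (ℕ × Bool))
    (hAh : ∀ a ∈ A, a.1 < P.h) (R : ℕ × Bool → Finset (Fin 3)) (r0 : ℕ × Bool → ℕ)
    (hR : ∀ a ∈ A, ∀ i ∈ R a, r0 a ≤ rk3 i) (E : Finset (Dt × (ℕ × ℕ)) → Prop)
    (hE : ∀ T, E T → ∀ x ∈ T, ∀ y ∈ T, x ≠ y → ∀ a ∈ A,
      PreNe rk3 (r0 a) (vec a x.1) (vec a y.1))
    (Φ : Dt × (ℕ × ℕ) → δ) (gd : δ → Dt)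
    (hgd : ∀ x, ∀ a ∈ A, vec a (gd (Φ x)) = vec a x.1 ∧ cod a (gd (Φ x)) = cod a x.1)
    (hΦ : ∀ x y, Φ x = Φ y → x.1.1 = y.1.1) (Cand : (κ → ℕ) → Finset δ) {ρ : ℝ} (hρ : 0 ≤ ρ)
    (hcard : ∀ w, ((Cand w).card : ℝ) ≤ ρ * ∏ a ∈ A, (MM (P.p a.1) (P.z a.1) (R a) : ℝ))
    (hcv : ∀ w, ∀ t ∈ Cand w, ∀ a ∈ A, vec a (gd t) ∈ P.Y a.1) (m : ℕ)
    (hCand : ∀ w w', Agr P A R w w' → ∀ T : Finset (Dt × (ℕ × ℕ)), T.card = m + 1 → E T →
      (∀ x ∈ T, Hit P w I X B B' x) → ∀ x ∈ T, Φ x ∈ Cand w') :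
    PrG Mk K (Ev P I X B B' m E)
      ((∏ a ∈ A, (MM (P.p a.1) (P.z a.1) (R a) : ℝ)) * ρ ^ (m + 1)) := by
  classical
  set K1 : Finset κ := K.filter (fun k => ∃ a ∈ A, ∃ i ∈ R a, ∃ y, k = (part P a).key i y)
    with hK1
  have hK1K : K1 ⊆ K := filter_subset _ _
  have hprod : (0 : ℝ) ≤ ∏ a ∈ A, (MM (P.p a.1) (P.z a.1) (R a) : ℝ) :=
    Finset.prod_nonneg (fun _ _ => Nat.cast_nonneg _)
  have hpK : ∀ a : ℕ × Bool, a.1 < P.h → ∀ i, ∀ y ∈ P.Y a.1, (part P a).key i y ∈ K := by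
    intro a ha i y hy
    obtain ⟨t, s⟩ := a
    cases s
    · exact (hK t ha i y hy).1
    · exact (hK t ha i y hy).2
  refine PrG_cond (K0 := K \ K1) sdiff_subset (mul_nonneg hprod (pow_nonneg hρ _)) ?_
  intro q0 _
  have hKK : K \ (K \ K1) = K1 := Finset.sdiff_sdiff_eq_self hK1K
  rw [hKK]
  set w0 := ext (K \ K1) q0 with hw0
  have hG : ∀ w : κ → ℕ, ∀ k ∈ K1, glue (K \ K1) w0 w k = w k := by
    intro w k hk
    apply glue_not_mem
    rw [mem_sdiff]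
    exact fun h => h.2 hk
  have hmain := tuple_gen (p := fun a : ℕ × Bool => P.p a.1) (fun a => hP.prime a.1)
    (fun a => hP.inj a.1) (A := A) (S := fun a => part P a) (rk := rk3) (Mk := Mk)
    (fun a ha => part_ok hP (hAh a ha))
    (fun a _ a' _ h i y i' y' => part_disj hP h i y i' y') hMk R K1
    (fun w => glue (K \ K1) w0 w) hG (fun t a => vec a (gd t)) (fun t a => cod a (gd t))
    (Cand w0) ?_ ρ ?_ m
  · refine PrG_mono ?_ ?_ hmain
    · rintro v _ ⟨T, hTc, hTh, hTl, hTE⟩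
      set w := glue (K \ K1) w0 (ext K1 v) with hw
      have hagr : Agr P A R w w0 := by
        intro a ha y hy i hi
        have hmem : (part P a).key i y ∈ K \ K1 := by
          rw [mem_sdiff]
          refine ⟨hpK a ha i y hy, ?_⟩
          rw [hK1, mem_filter]
          rintro ⟨_, a', ha', i', hi', y', he⟩
          by_cases haa : a = a'
          · subst haa
            have h1 := ((part_ok hP ha).inj i i' y y' he).1
            subst h1
            exact hi ha' hi'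
          · exact part_disj hP haa i y i' y' he
        rw [hw, glue_mem _ _ _ hmem]
      have hΦT : Set.InjOn Φ (T : Set (Dt × (ℕ × ℕ))) := fun x hx y hy hxy =>
        hTl x hx y hy (hΦ x y hxy)
      refine ⟨T.image Φ, ?_, ?_, ?_, ?_⟩
      · intro t ht
        obtain ⟨x, hx, rfl⟩ := mem_image.1 ht
        exact hCand w w0 hagr T hTc hTE hTh x hx
      · rw [Finset.card_image_of_injOn hΦT, hTc]
      · intro t ht a ha _
        obtain ⟨x, hx, rfl⟩ := mem_image.1 ht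
        have h1 := (hTh x hx).code hP (hAh a ha)
        obtain ⟨h2, h3⟩ := hgd x a ha
        rw [h2, h3]
        exact h1
      · intro t ht t' ht' htt
        obtain ⟨x, hx, rfl⟩ := mem_image.1 ht
        obtain ⟨y, hy, rfl⟩ := mem_image.1 ht'
        have hxy : x ≠ y := fun he => htt (by rw [he])
        refine disjoint_fks (fun a _ a' _ h i y i' y' => part_disj hP h i y i' y') _ _ ?_
        intro a ha
        refine disjoint_fk' (part_ok hP (hAh a ha)) (R a) (r0 a) (hR a ha) _ _ (fun _ => ?_)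
        rw [(hgd x a ha).1, (hgd y a ha).1]
        exact hE T hTE x hx y hy hxy a ha
    · calc ((Cand w0).card : ℝ) * ρ ^ m
          ≤ (ρ * ∏ a ∈ A, (MM (P.p a.1) (P.z a.1) (R a) : ℝ)) * ρ ^ m :=
            mul_le_mul_of_nonneg_right (hcard w0) (pow_nonneg hρ _)
        _ = _ := by rw [pow_succ]; ring
  · intro t ht a ha i hi
    rw [hK1, mem_filter]
    exact ⟨hpK a (hAh a ha) i _ (hcv w0 t ht a ha), a, ha, i, hi, _, rfl⟩
  · have : ∀ a ∈ A, (MM (P.p a.1) (part P a).e (R a) : ℝ) = MM (P.p a.1) (P.z a.1) (R a) := by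
      intro a _
      rw [part_e]
    rw [Finset.prod_congr rfl this]
    exact hcard w0

end Pool.Agent.Helper22.SL
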