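import Pool.Agent.Helper22.SL.Core

/-!
# Block SL: the events `EvA`, `EvA'`
-/

namespace Pool.Agent.Helper22.SL

open Finset Pool.Agent.Helper27.T4 Pool.Agent.Helper29.T4 Pool.Agent.Helper22.HW

variable {κ : Type*} [DecidableEq κ] {Mk : κ → ℕ} {P : Pr κ} {I : ℕ} {X : ℕ → ℕ}

/-- statement S9 -/
def TrMem (P : Pr κ) (I : ℕ) (X : ℕ → ℕ) (B B' : Finset ℕ) : Prop :=
  ∀ (w : κ → ℕ) (x : Dt × (ℕ × ℕ)), Hit P w I X B B' x → ∀ r ≤ P.h, ∀ w' : κ → ℕ,
    (∀ t < r, ∀ y ∈ P.Y t, ∀ i : Fin 3, i ≠ 2 → w' (P.key t i y) = w (P.key t i y) ∧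
      w' (P.key' t i y) = w (P.key' t i y)) →
    tr r x.1 ∈ CC P w' I X r ∧ TT X (tr r x.1) r = TT X x.1 r

/-- the parts of the levels `< r` -/
def pts (r : ℕ) : Finset (ℕ × Bool) := range r ×ˢ univ

omit [DecidableEq κ] in
theorem prod_pts (P : Pr κ) (r : ℕ) (R : ℕ × Bool → Finset (Fin 3))
    (hR : ∀ a ∈ pts r, R a = {2}) :
    ∏ a ∈ pts r, (MM (P.p a.1) (P.z a.1) (R a) : ℝ) = P.W r := by
  rw [Finset.prod_congr rfl (g := fun a : ℕ × Bool => ((P.q a.1 2 : ℕ) : ℝ))]
  · rw [pts, Finset.prod_product, Pr.W]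
    refine Finset.prod_congr rfl (fun t _ => ?_)
    simp only [Fintype.prod_bool, pow_two]
  · intro a ha
    rw [hR a ha, MM, Finset.prod_singleton]
    rfl

theorem tr_vec {r : ℕ} {a : ℕ × Bool} (ha : a.1 < r) (d : Dt) : vec a (tr r d) = vec a d := by
  unfold vec tr
  simp only [ha, if_true]

theorem tr_cod {r : ℕ} {a : ℕ × Bool} (ha : a.1 < r) (d : Dt) : cod a (tr r d) = cod a d := by
  unfold cod tr
  simp only [ha, if_true]

theorem tr_succA (r : ℕ) (d : Dt) :
    tr (r + 1) d = ((tr r d).1, Function.update (tr r d).2 r (d.2 r)) := by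
  unfold tr
  refine Prod.ext rfl ?_
  funext t
  by_cases h : t = r
  · subst h
    simp
  · simp only [Function.update_of_ne h]
    have : t < r + 1 ↔ t < r := by omega
    simp only [this]

omit [DecidableEq κ] in
theorem mem_box {w : κ → ℕ} {N N' : Finset (Fin 3)} {r t : ℕ} {ℓ : Lv}
    (h : Lok P w N N' r t ℓ) : ℓ ∈ box P r := by
  rw [box, mem_product, mem_product, mem_product, mem_range, mem_range]
  exact ⟨⟨h.y, h.y'⟩, h.lt, h.lt'⟩

omit [DecidableEq κ] in
/-- change of the keys in `Lok` -/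
theorem Lok.change {w w' : κ → ℕ} {N N' N1 N1' : Finset (Fin 3)} {r t : ℕ} {ℓ : Lv}
    (h : Lok P w N N' r t ℓ) (h1 : ∀ i ∈ N1, i ∈ N ∧ w' (P.key r i ℓ.1.1) = w (P.key r i ℓ.1.1))
    (h1' : ∀ i ∈ N1', i ∈ N' ∧ w' (P.key' r i ℓ.1.2) = w (P.key' r i ℓ.1.2)) :
    Lok P w' N1 N1' r t ℓ :=
  ⟨h.y, h.y', h.lt, h.lt', h.dvd, h.dvd', fun i hi => by
    rw [(h1 i hi).2]; exact h.cmp i (h1 i hi).1, fun i hi => by
    rw [(h1' i hi).2]; exact h.cmp' i (h1' i hi).1, h.le, h.tdvd⟩

/-- the candidates of the event `EvA` (`s = false`) or `EvA'` (`s = true`) -/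
noncomputable def CandA (P : Pr κ) (w : κ → ℕ) (I : ℕ) (X : ℕ → ℕ) (r : ℕ)
    (pp : ℕ → Lv → Prop) : Finset Dt := by
  classical
  exact ((CC P w I X r ×ˢ box P r).filter (fun q => pp (TT X q.1 r) q.2)).image
    (fun q => (q.1.1, Function.update q.1.2 r q.2))

omit [DecidableEq κ] in
theorem mem_CandA {w : κ → ℕ} {r : ℕ} {pp : ℕ → Lv → Prop} {t : Dt} :
    t ∈ CandA P w I X r pp ↔ ∃ d ℓ, d ∈ CC P w I X r ∧ ℓ ∈ box P r ∧ pp (TT X d r) ℓ ∧
      (d.1, Function.update d.2 r ℓ) = t := by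
  classical
  unfold CandA
  rw [mem_image]
  constructor
  · rintro ⟨⟨d, ℓ⟩, hq, he⟩
    rw [mem_filter, mem_product] at hq
    exact ⟨d, ℓ, hq.1.1, hq.1.2, hq.2, he⟩
  · rintro ⟨d, ℓ, hd, hℓ, hp, he⟩
    exact ⟨(d, ℓ), mem_filter.2 ⟨mem_product.2 ⟨hd, hℓ⟩, hp⟩, he⟩

omit [DecidableEq κ] in
theorem card_CandA (w : κ → ℕ) (r : ℕ) (pp : ℕ → Lv → Prop) {c t : ℝ} (hc : 0 ≤ c)
    (htot : ((CC P w I X r).card : ℝ) ≤ t)
    (hpp : ∀ u, ∀ F : Finset Lv, (∀ ℓ ∈ F, ℓ ∈ box P r ∧ pp u ℓ) → (F.card : ℝ) ≤ c) :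
    ((CandA P w I X r pp).card : ℝ) ≤ t * c := by
  classical
  have h1 : (CandA P w I X r pp).card ≤
      ((CC P w I X r ×ˢ box P r).filter (fun q => pp (TT X q.1 r) q.2)).card := by
    unfold CandA
    exact Finset.card_image_le
  have h2 : ((CC P w I X r ×ˢ box P r).filter (fun q => pp (TT X q.1 r) q.2)).card =
      ∑ d ∈ CC P w I X r, ((box P r).filter (fun ℓ => pp (TT X d r) ℓ)).card := by
    rw [← Finset.card_sigma]
    refine Finset.card_nbij' (fun q => ⟨q.1, q.2⟩) (fun q => (q.1, q.2)) ?_ ?_ ?_ ?_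
    · rintro ⟨d, ℓ⟩ h
      simp only [coe_filter, mem_product, Set.mem_ofPred_eq] at h
      simp only [coe_sigma, Set.mem_sigma_iff, mem_coe, mem_filter]
      exact ⟨h.1.1, h.1.2, h.2⟩
    · rintro ⟨d, ℓ⟩ h
      simp only [coe_sigma, Set.mem_sigma_iff, mem_coe, mem_filter] at h
      simp only [coe_filter, mem_product, Set.mem_ofPred_eq]
      exact ⟨⟨h.1, h.2.1⟩, h.2.2⟩
    · rintro ⟨d, ℓ⟩ _
      rfl
    · rintro ⟨d, ℓ⟩ _
      rfl
  have h3 : (((CC P w I X r ×ˢ box P r).filter (fun q => pp (TT X q.1 r) q.2)).card : ℝ) ≤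
      (CC P w I X r).card * c := by
    rw [h2]
    push_cast
    refine (Finset.sum_le_card_nsmul _ _ c (fun d _ => ?_)).trans (le_of_eq (nsmul_eq_mul _ _))
    refine hpp (TT X d r) _ (fun ℓ hℓ => ?_)
    rw [mem_filter] at hℓ
    exact hℓ
  calc ((CandA P w I X r pp).card : ℝ)
      ≤ (((CC P w I X r ×ˢ box P r).filter (fun q => pp (TT X q.1 r) q.2)).card : ℝ) := by
        exact_mod_cast h1
    _ ≤ (CC P w I X r).card * c := h3
    _ ≤ t * c := mul_le_mul_of_nonneg_right htot hc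

variable {K : Finset κ}

theorem prA_gen (s : Bool) (hP : P.Ok Mk) (hMk : ∀ k, 0 < Mk k)
    (hK : ∀ r < P.h, ∀ i, ∀ y ∈ P.Y r, P.key r i y ∈ K ∧ P.key' r i y ∈ K) (B B' : Finset ℕ)
    (htr : TrMem P I X B B')
    {r : ℕ} (hr : r < P.h) {cl tt : ℝ} (hcl : 0 ≤ cl)
    (htot : ∀ w, ((CC P w I X r).card : ℝ) ≤ tt)
    (hlv : ∀ (w : κ → ℕ) (t a b : ℕ) (F : Finset Lv),
      (∀ ℓ ∈ F, ℓ ∈ box P r ∧ (if s then Lok P w {0, 2} univ r t ℓ ∧ ℓ.1.2 0 = a ∧ ℓ.1.2 1 = b
        else Lok P w univ {0, 2} r t ℓ ∧ ℓ.1.1 0 = a ∧ ℓ.1.1 1 = b)) → (F.card : ℝ) ≤ cl)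
    {ρ : ℝ} (hρ : 0 ≤ ρ) (h1 : tt * cl ≤ ρ * (P.W r * P.q r 1)) (m : ℕ) :
    PrG Mk K (Ev P I X B B' m (if s then EvA' r else EvA r))
      ((P.q r 0 * P.q r 1 : ℕ) * (P.W r * P.q r 1) * ρ ^ (m + 1)) := by
  classical
  -- the parts
  set A : Finset (ℕ × Bool) := insert (r, !s) (pts r) with hA
  set R : ℕ × Bool → Finset (Fin 3) := fun a => if a.1 = r then {1} else {2} with hRd
  set r0 : ℕ × Bool → ℕ := fun a => if a.1 = r then 1 else 2 with hr0d
  have hnot : (r, !s) ∉ pts r := by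
    rw [pts, mem_product, mem_range]
    intro h
    exact lt_irrefl _ h.1
  have hAlt : ∀ a ∈ A, a.1 < r + 1 := by
    intro a ha
    rw [hA, mem_insert, pts, mem_product, mem_range] at ha
    rcases ha with rfl | ha
    · exact Nat.lt_succ_self _
    · exact ha.1.trans (Nat.lt_succ_self _)
  have hprod : ∏ a ∈ A, (MM (P.p a.1) (P.z a.1) (R a) : ℝ) = P.W r * P.q r 1 := by
    rw [hA, Finset.prod_insert hnot, prod_pts P r R]
    · have : R (r, !s) = {1} := by simp [hRd]
      rw [this, MM, Finset.prod_singleton, mul_comm]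
      rfl
    · intro a ha
      rw [pts, mem_product, mem_range] at ha
      have : a.1 ≠ r := ne_of_lt ha.1
      simp [hRd, this]
  -- the event with given constants
  set E : ℕ → ℕ → Finset (Dt × (ℕ × ℕ)) → Prop := fun a b T =>
    (∀ t < r, KNe t T ∧ KNe' t T) ∧ (∀ x ∈ T, vec (r, s) x.1 0 = a ∧ vec (r, s) x.1 1 = b) ∧
      ∀ x ∈ T, ∀ y ∈ T, x ≠ y → vec (r, !s) x.1 0 ≠ vec (r, !s) y.1 0 with hE
  have hmain : ∀ a b, PrG Mk K (Ev P I X B B' m (E a b))
      ((P.W r * P.q r 1) * ρ ^ (m + 1)) := by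
    intro a b
    have h := prCore hP hMk hK (I := I) (X := X) (B := B) (B' := B') A
      (fun a ha => lt_of_lt_of_le (hAlt a ha) hr) R r0 ?_ (E a b) ?_
      (fun x => tr (r + 1) x.1) id ?_ ?_
      (fun w => CandA P w I X r (fun t ℓ => if s then Lok P w {0, 2} univ r t ℓ ∧
        ℓ.1.2 0 = a ∧ ℓ.1.2 1 = b else Lok P w univ {0, 2} r t ℓ ∧ ℓ.1.1 0 = a ∧ ℓ.1.1 1 = b))
      hρ ?_ ?_ m ?_
    · rw [hprod] at h
      exact h
    · -- ranks of the fresh families
      intro a _ i hi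
      by_cases h : a.1 = r
      · simp only [hRd, h, if_true, mem_singleton] at hi
        subst hi
        simp [hr0d, h, rk3]
      · simp only [hRd, h, if_false, mem_singleton] at hi
        subst hi
        simp [hr0d, h, rk3]
    · -- different initial parts
      rintro T ⟨hT1, hT2, hT3⟩ x hx y hy hxy a ha
      rw [hA, mem_insert] at ha
      rcases ha with rfl | ha
      · refine ⟨0, ?_, hT3 x hx y hy hxy⟩
        simp [hr0d, rk3]
      · rw [pts, mem_product, mem_range] at ha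
        have hne : a.1 ≠ r := ne_of_lt ha.1
        have hr0 : r0 a = 2 := by simp [hr0d, hne]
        rw [hr0]
        obtain ⟨t, c⟩ := a
        cases c
        · exact (hT1 t ha.1).1 x hx y hy hxy
        · exact (hT1 t ha.1).2 x hx y hy hxy
    · intro x a ha
      exact ⟨tr_vec (hAlt a ha) _, tr_cod (hAlt a ha) _⟩
    · intro x y hxy
      have h := congrArg Prod.fst hxy
      exact h
    · -- number of candidates
      intro w
      rw [hprod]
      refine (card_CandA w r _ hcl (htot w) (fun u F hF => hlv w u a b F hF)).trans h1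
    · -- admissible vectors
      intro w t ht c hc
      obtain ⟨d, ℓ, hd, hℓb, _, rfl⟩ := mem_CandA.1 ht
      rw [hA, mem_insert] at hc
      rcases hc with rfl | hc
      · rw [box, mem_product, mem_product] at hℓb
        simp only [vec, id, Function.update_self]
        split_ifs
        · exact hℓb.1.2
        · exact hℓb.1.1
      · rw [pts, mem_product, mem_range] at hc
        have hne : c.1 ≠ r := ne_of_lt hc.1
        -- the data of the level `c.1` of a member of `CC`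
        have hCC : ∀ (r' : ℕ) (d : Dt), d ∈ CC P w I X r' → ∀ t < r', d.2 t ∈ box P t := by
          intro r'
          induction r' with
          | zero => intro d _ t ht; exact absurd ht (Nat.not_lt_zero _)
          | succ r' ih =>
            intro d hd t ht
            rw [CC, mem_image] at hd
            obtain ⟨⟨d0, ℓ0⟩, hq0, rfl⟩ := hd
            rw [mem_filter, mem_product] at hq0
            by_cases htr' : t = r'
            · subst htr'
              simp only [Function.update_self]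
              exact hq0.1.2
            · simp only [Function.update_of_ne htr']
              exact ih d0 hq0.1.1 t (by omega)
        have hb := hCC r d hd c.1 hc.1
        rw [box, mem_product, mem_product] at hb
        simp only [vec, id, Function.update_of_ne hne]
        split_ifs
        · exact hb.1.2
        · exact hb.1.1
    · -- the candidates contain the hits
      rintro w w' hagr T _ ⟨_, hT2, _⟩ hTh x hx
      have hx' := hTh x hx
      have hag : ∀ (t : ℕ) (c : Bool), t < P.h → ∀ y ∈ P.Y t, ∀ i : Fin 3,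
          (t < r → i ≠ 2) → (t = r → c = !s → i ≠ 1) →
          w' ((part P (t, c)).key i y) = w ((part P (t, c)).key i y) := by
        intro t c ht y hy i h2 h1
        refine hagr (t, c) ht y hy i ?_
        intro hmem
        rw [hA, mem_insert] at hmem
        rcases hmem with hmem | hmem
        · rw [Prod.mk.injEq] at hmem
          simp only [hRd, hmem.1, if_true, mem_singleton]
          exact h1 hmem.1 hmem.2
        · rw [pts, mem_product, mem_range] at hmem
          have hne : t ≠ r := ne_of_lt hmem.1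
          simp only [hRd, hne, if_false, mem_singleton]
          exact h2 hmem.1
      obtain ⟨h9, h9'⟩ := htr w x hx' r hr.le w' (fun t ht y hy i hi =>
        ⟨hag t false (ht.trans hr) y hy i (fun _ => hi) (fun h => absurd h (ne_of_lt ht)),
          hag t true (ht.trans hr) y hy i (fun _ => hi) (fun h => absurd h (ne_of_lt ht))⟩)
      refine mem_CandA.2 ⟨tr r x.1, x.1.2 r, h9, ?_, ?_, (tr_succA r x.1).symm⟩
      · exact mem_box (hx'.lev r hr)
      · rw [h9']
        have hl := hx'.lev r hr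
        have hv := hT2 x hx
        cases s
        · simp only [Bool.false_eq_true, if_false]
          refine ⟨hl.change (fun i _ => ⟨mem_univ i, ?_⟩) (fun i hi => ⟨mem_univ i, ?_⟩), hv⟩
          · exact hag r false hr _ hl.y i (fun h => absurd h (lt_irrefl _))
              (fun _ h => by simp at h)
          · refine hag r true hr _ hl.y' i (fun h => absurd h (lt_irrefl _)) (fun _ _ h => ?_)
            subst h
            simp at hi
        · simp only [if_true]
          refine ⟨hl.change (fun i hi => ⟨mem_univ i, ?_⟩) (fun i _ => ⟨mem_univ i, ?_⟩), hv⟩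
          · refine hag r false hr _ hl.y i (fun h => absurd h (lt_irrefl _)) (fun _ _ h => ?_)
            subst h
            simp at hi
          · exact hag r true hr _ hl.y' i (fun h => absurd h (lt_irrefl _))
              (fun _ h => by simp at h)
  -- union over the constants
  obtain ⟨U, hU, hYU⟩ := hP.adm r
  have hun := PrG_exists (K := K) (Mk := Mk) (U 0 ×ˢ U 1)
    (B := fun ab => Ev P I X B B' m (E ab.1 ab.2))
    (ε := fun _ => (P.W r * P.q r 1) * ρ ^ (m + 1)) (fun ab _ => hmain ab.1 ab.2)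
  refine PrG_mono ?_ ?_ hun
  · rintro v _ ⟨T, hTc, hTh, hTl, hTE⟩
    have hex : ∃ a b, (∀ x ∈ T, vec (r, s) x.1 0 = a ∧ vec (r, s) x.1 1 = b) ∧
        (∀ t < r, KNe t T ∧ KNe' t T) ∧
        ∀ x ∈ T, ∀ y ∈ T, x ≠ y → vec (r, !s) x.1 0 ≠ vec (r, !s) y.1 0 := by
      cases s
      · obtain ⟨e1, ⟨a, b, e2⟩, e3⟩ := hTE
        exact ⟨a, b, e2, e1, e3⟩
      · obtain ⟨e1, ⟨a, b, e2⟩, e3⟩ := hTE
        exact ⟨a, b, e2, e1, e3⟩
    obtain ⟨a, b, e2, e1, e3⟩ := hex
    refine ⟨(a, b), ?_, T, hTc, hTh, hTl, e1, e2, e3⟩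
    -- the constants are small
    have hT0 : T.Nonempty := by
      rw [← Finset.card_pos, hTc]
      exact Nat.succ_pos _
    obtain ⟨x, hx⟩ := hT0
    have hv := vec_mem (hTh x hx) (a := (r, s)) hr
    obtain ⟨ea, eb⟩ := e2 x hx
    rw [mem_product]
    exact ⟨by rw [← ea]; exact hYU _ hv 0, by rw [← eb]; exact hYU _ hv 1⟩
  · rw [Finset.sum_const, nsmul_eq_mul]
    have hW : 0 ≤ P.W r := by
      rw [Pr.W]
      exact Finset.prod_nonneg (fun t _ => by positivity)
    have hc : (U 0 ×ˢ U 1).card ≤ P.q r 0 * P.q r 1 := by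
      rw [card_product]
      exact Nat.mul_le_mul (hU 0).card_le (hU 1).card_le
    have hc' : (((U 0 ×ˢ U 1).card : ℕ) : ℝ) ≤ ((P.q r 0 * P.q r 1 : ℕ) : ℝ) := by exact_mod_cast hc
    rw [mul_assoc (((P.q r 0 * P.q r 1 : ℕ) : ℝ))]
    refine mul_le_mul_of_nonneg_right hc' ?_
    positivity

end Pool.Agent.Helper22.SL
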