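import Pool.Agent.Helper22.HW.Keys
import Pool.Agent.Helper22.SL.PrG

/-!
# The union bound for several parts (side and level) at once

A candidate `t` carries for each part `a ∈ A` a vector `yv t a` and a code `uv t a`.
`tuple_gen`: the probability of `m + 1` hits with pairwise disjoint fresh keys is at most
`#Cand * Q ^ m` if `#Cand` is at most `Q` times the product of the fresh moduli.
-/

namespace Pool.Agent.Helper22.SL

open Finset Pool.Agent.Helper27.T4 Pool.Agent.Helper29.T4 Pool.Agent.Helper22.HW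

variable {ι κ α : Type*} [DecidableEq κ] {p : α → ι → ℕ}

/-- the fresh keys of a candidate -/
def fks (A : Finset α) (S : ∀ a, Side (p a) κ) (R : α → Finset ι) (y : α → ι → ℕ) :
    Finset κ :=
  A.biUnion (fun a => (S a).fk (R a) (y a))

/-- the fresh keys of two candidates are disjoint if they are so part by part -/
theorem disjoint_fks {A : Finset α} {S : ∀ a, Side (p a) κ} {R : α → Finset ι}
    (hdisj : ∀ a ∈ A, ∀ a' ∈ A, a ≠ a' → ∀ i y i' y', (S a).key i y ≠ (S a').key i' y')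
    (y y' : α → ι → ℕ)
    (h : ∀ a ∈ A, Disjoint ((S a).fk (R a) (y a)) ((S a).fk (R a) (y' a))) :
    Disjoint (fks A S R y) (fks A S R y') := by
  rw [Finset.disjoint_left]
  intro k hk hk'
  rw [fks, mem_biUnion] at hk hk'
  obtain ⟨a, hA, ha⟩ := hk
  obtain ⟨a', hA', ha'⟩ := hk'
  by_cases he : a = a'
  · subst he
    exact (Finset.disjoint_left.1 (h a hA) ha) ha'
  · rw [Side.fk, mem_image] at ha ha'
    obtain ⟨i, _, hi⟩ := ha
    obtain ⟨i', _, hi'⟩ := ha'
    exact hdisj a hA a' hA' he i _ i' _ (hi.trans hi'.symm)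

/-- part by part: the families are of rank `≥ r` and the initial parts differ, or no family -/
theorem disjoint_fk' {q : ι → ℕ} {S : Side q κ} {rk : ι → ℕ} {Mk : κ → ℕ} (h : S.Ok rk Mk)
    (R : Finset ι) (r : ℕ) (hR : ∀ i ∈ R, r ≤ rk i) (y y' : ι → ℕ)
    (hne : R.Nonempty → PreNe rk r y y') :
    Disjoint (S.fk R y) (S.fk R y') := by
  rw [Finset.disjoint_left]
  intro k hk hk'
  rw [Side.fk, mem_image] at hk hk'
  obtain ⟨i, hi, rfl⟩ := hk
  obtain ⟨i', hi', he⟩ := hk'
  obtain ⟨hii, hj⟩ := h.inj i' i y' y he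
  subst hii
  obtain ⟨j, hj0, hjne⟩ := hne ⟨_, hi⟩
  exact hjne (hj j (lt_of_lt_of_le hj0 (hR _ hi))).symm

/-- **The tuple bound with several parts.**  `G` is any map of assignments which does not change
the keys of `K1` (for instance: it fixes all keys outside `K1`). -/
theorem tuple_gen [Fintype ι] (hp : ∀ a i, (p a i).Prime) (hinj : ∀ a, Function.Injective (p a))
    {δ : Type*} {A : Finset α} {S : ∀ a, Side (p a) κ} {rk : ι → ℕ} {Mk : κ → ℕ}
    (hS : ∀ a ∈ A, (S a).Ok rk Mk)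
    (hdisj : ∀ a ∈ A, ∀ a' ∈ A, a ≠ a' → ∀ i y i' y', (S a).key i y ≠ (S a').key i' y')
    (hMk : ∀ k, 0 < Mk k) (R : α → Finset ι) (K1 : Finset κ) (G : (κ → ℕ) → κ → ℕ)
    (hG : ∀ w, ∀ k ∈ K1, G w k = w k) (yv : δ → α → ι → ℕ) (uv : δ → α → ℕ)
    (Cand : Finset δ) (hK : ∀ t ∈ Cand, ∀ a ∈ A, ∀ i ∈ R a, (S a).key i (yv t a) ∈ K1)
    (Q : ℝ) (hQ : (Cand.card : ℝ) ≤ Q * ∏ a ∈ A, (MM (p a) (S a).e (R a) : ℝ)) (m : ℕ) :
    PrG Mk K1 (fun w => ∃ T ⊆ Cand, T.card = m + 1 ∧
        (∀ t ∈ T, ∀ a ∈ A, (R a).Nonempty →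
          (S a).cd (hp a) (hinj a) (G w) (yv t a) = uv t a) ∧
        (∀ t ∈ T, ∀ t' ∈ T, t ≠ t' → Disjoint (fks A S R (yv t)) (fks A S R (yv t'))))
      (Cand.card * Q ^ m) := by
  classical
  -- fresh keys inside `K1`
  set fkt : δ → Finset K1 := fun t =>
    Finset.univ.filter (fun k : K1 => (k : κ) ∈ fks A S R (yv t)) with hfkt
  have hmem : ∀ (t : δ) (k : K1), k ∈ fkt t ↔
      ∃ ai : α × ι, ai.1 ∈ A ∧ ai.2 ∈ R ai.1 ∧ (S ai.1).key ai.2 (yv t ai.1) = (k : κ) := by
    intro t k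
    rw [hfkt]
    simp only [mem_filter, mem_univ, true_and, fks, mem_biUnion, Side.fk, mem_image]
    constructor
    · rintro ⟨a, hA, i, hi, he⟩
      exact ⟨(a, i), hA, hi, he⟩
    · rintro ⟨⟨a, i⟩, hA, hi, he⟩
      exact ⟨a, hA, i, hi, he⟩
  -- the values
  set vl : δ → K1 → ℕ := fun t k =>
    if h : ∃ ai : α × ι, ai.1 ∈ A ∧ ai.2 ∈ R ai.1 ∧
        (S ai.1).key ai.2 (yv t ai.1) = (k : κ) then
      kval (S h.choose.1) (yv t h.choose.1) (uv t h.choose.1) h.choose.2
    else 0 with hvl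
  rw [PrG_iff, mul_comm]
  refine tuple_bound_set (fun k : K1 => Mk k) (fun k => hMk k) Cand
    (fun t ω => ∀ a ∈ A, (R a).Nonempty →
      (S a).cd (hp a) (hinj a) (G (ext K1 ω)) (yv t a) = uv t a) fkt vl ?_ Q ?_ m _ ?_
  · -- the values are forced
    intro t ht ω hω hhit k hk
    have h := (hmem t k).1 hk
    have hωk : ω k < Mk k := by
      rw [Om, Fintype.mem_piFinset] at hω
      exact mem_range.1 (hω k)
    have hcomb : G (ext K1 ω) (k : κ) = ω k := by
      rw [hG _ _ k.2, ext_mem ω k.2]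
    simp only [hvl, dif_pos h]
    have hch := h.choose_spec
    have h3 := key_value (hp _) (hinj _) (hS h.choose.1 hch.1) (G (ext K1 ω)) (yv t h.choose.1)
      (uv t h.choose.1) h.choose.2 (by rw [hch.2.2, hcomb]; exact hωk)
      (hhit h.choose.1 hch.1 ⟨_, hch.2.1⟩)
    rw [hch.2.2, hcomb] at h3
    exact h3
  · -- the weights
    have hpos : (0 : ℝ) < ∏ a ∈ A, (MM (p a) (S a).e (R a) : ℝ) := by
      refine Finset.prod_pos (fun a _ => ?_)
      exact_mod_cast MM_pos (hp a) (S a).e (R a)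
    have hw : ∀ z ∈ Cand, ∏ k ∈ fkt z, ((Mk (k : κ) : ℝ))⁻¹
        = (∏ a ∈ A, (MM (p a) (S a).e (R a) : ℝ))⁻¹ := by
      intro z hz
      have h1 : ∏ k ∈ fkt z, ((Mk (k : κ) : ℝ))⁻¹ = ∏ k ∈ fks A S R (yv z), ((Mk k : ℝ))⁻¹ := by
        rw [← Finset.prod_image (s := fkt z) (g := fun k : K1 => (k : κ))
          (f := fun k => ((Mk k : ℝ))⁻¹) (fun a _ b _ hab => Subtype.ext hab)]
        congr 1
        ext k
        rw [mem_image]
        constructor
        · rintro ⟨k', hk', rfl⟩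
          rw [hfkt] at hk'
          simp only [mem_filter, mem_univ, true_and] at hk'
          exact hk'
        · intro hk
          have hkK : k ∈ K1 := by
            rw [fks, mem_biUnion] at hk
            obtain ⟨a, hA, ha⟩ := hk
            rw [Side.fk, mem_image] at ha
            obtain ⟨i, hi, rfl⟩ := ha
            exact hK z hz a hA i hi
          refine ⟨⟨k, hkK⟩, ?_, rfl⟩
          rw [hfkt]
          simp only [mem_filter, mem_univ, true_and]
          exact hk
      rw [h1, fks, Finset.prod_biUnion]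
      · rw [← Finset.prod_inv_distrib]
        exact Finset.prod_congr rfl (fun a ha => (hS a ha).prod_fk (R a) (yv z a))
      · intro a ha a' ha' haa
        rw [Function.onFun, Finset.disjoint_left]
        intro k hk hk'
        rw [Side.fk, mem_image] at hk hk'
        obtain ⟨i, _, hi⟩ := hk
        obtain ⟨i', _, hi'⟩ := hk'
        exact hdisj a (mem_coe.1 ha) a' (mem_coe.1 ha') haa i _ i' _ (hi.trans hi'.symm)
    rw [Finset.sum_congr rfl hw, Finset.sum_const, nsmul_eq_mul, ← div_eq_mul_inv,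
      div_le_iff₀ hpos]
    exact hQ
  · intro ω hω
    rw [mem_filter] at hω
    obtain ⟨hω1, T, hT, hTc, hhit, hd⟩ := hω
    refine ⟨hω1, T, hT, hTc, hhit, ?_⟩
    intro t ht t' ht' htt
    have hdd := hd t ht t' ht' htt
    rw [Finset.disjoint_left]
    intro k hk hk'
    rw [hfkt] at hk hk'
    simp only [mem_filter, mem_univ, true_and] at hk hk'
    exact (Finset.disjoint_left.1 hdd hk) hk'

end Pool.Agent.Helper22.SL
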